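import Pool.Agent.Lib.PadicLindemann.Coeffs

/-!
# Hermite-Pade forms of exponentials: the p-adic estimate
-/

set_option autoImplicit false
set_option linter.unusedSectionVars false

namespace Pool.Agent.Lib.PadicLindemann

open Finset

section analytic

variable {K : Type*} [NormedField K] [IsUltrametricDist K] {p : ℕ} [hpr : Fact p.Prime]

theorem norm_nat_le (n : ℕ) : ‖(n : K)‖ ≤ 1 := IsUltrametricDist.norm_natCast_le_one K n

theorem norm_int_le (n : ℤ) : ‖(n : K)‖ ≤ 1 := IsUltrametricDist.norm_intCast_le_one K n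

omit hpr in
theorem norm_nat_coprime (hp : ‖(p : K)‖ = (p : ℝ)⁻¹) (hp1 : 1 < p) (n : ℕ) (hn : Nat.Coprime n p) :
    ‖(n : K)‖ = 1 := by
  apply le_antisymm (norm_nat_le n)
  by_contra hcon
  push Not at hcon
  have h1 : IsCoprime (n : ℤ) (p : ℤ) := Nat.isCoprime_iff_coprime.2 hn
  obtain ⟨a, b, hab⟩ := h1
  have h2 : ((a : K)) * (n : K) + (b : K) * (p : K) = 1 := by exact_mod_cast congrArg (Int.cast : ℤ → K) hab
  have h3 : ‖((a : K)) * (n : K)‖ < 1 := by
    rw [norm_mul]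
    calc ‖(a : K)‖ * ‖(n : K)‖ ≤ 1 * ‖(n : K)‖ :=
          mul_le_mul_of_nonneg_right (norm_int_le a) (norm_nonneg _)
      _ < 1 := by rwa [one_mul]
  have h4 : ‖((b : K)) * (p : K)‖ < 1 := by
    rw [norm_mul, hp]
    have h5 : (p : ℝ)⁻¹ < 1 := inv_lt_one_of_one_lt₀ (by exact_mod_cast hp1)
    calc ‖(b : K)‖ * (p : ℝ)⁻¹ ≤ 1 * (p : ℝ)⁻¹ :=
          mul_le_mul_of_nonneg_right (norm_int_le b) (by positivity)
      _ < 1 := by rwa [one_mul]
  have h5 : ‖(1 : K)‖ < 1 := by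
    rw [← h2]
    exact (IsUltrametricDist.norm_add_le_max _ _).trans_lt (max_lt h3 h4)
  rw [norm_one] at h5
  exact lt_irrefl _ h5

theorem norm_nat (hp : ‖(p : K)‖ = (p : ℝ)⁻¹) (n : ℕ) (hn : n ≠ 0) :
    ‖(n : K)‖ = ((p : ℝ) ^ n.factorization p)⁻¹ := by
  have hp1 : 1 < p := hpr.out.one_lt
  obtain ⟨w, hw⟩ := Nat.ordProj_dvd n p
  have hcop : Nat.Coprime w p := by
    have h1 : w = n / p ^ n.factorization p := by
      have hpos : 0 < p ^ n.factorization p := pow_pos hpr.out.pos _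
      exact (Nat.div_eq_of_eq_mul_right hpos hw).symm
    rw [h1]
    exact (Nat.coprime_ordCompl hpr.out hn).symm
  have h1 : (n : K) = (p : K) ^ n.factorization p * (w : K) := by
    conv_lhs => rw [hw]
    push_cast
    rfl
  rw [h1, norm_mul, norm_pow, hp, norm_nat_coprime hp hp1 w hcop, mul_one, inv_pow]

theorem norm_inv_factorial (hp : ‖(p : K)‖ = (p : ℝ)⁻¹) (k : ℕ) :
    ‖((k.factorial : ℕ) : K)‖⁻¹ ≤ (p : ℝ) ^ k := by
  have hp1 : (1 : ℝ) ≤ p := by exact_mod_cast hpr.out.one_lt.le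
  rw [norm_nat hp _ (Nat.factorial_ne_zero k), inv_inv]
  apply pow_le_pow_right₀ hp1
  have h1 := sub_one_mul_padicValNat_factorial (p := p) k
  rw [Nat.factorization_def _ hpr.out]
  have h2 : padicValNat p k.factorial ≤ (p - 1) * padicValNat p k.factorial := by
    have : 1 ≤ p - 1 := by
      have := hpr.out.two_le
      omega
    calc padicValNat p k.factorial = 1 * padicValNat p k.factorial := (one_mul _).symm
      _ ≤ _ := Nat.mul_le_mul_right _ this
  omega

theorem norm_inv_choose (hp : ‖(p : K)‖ = (p : ℝ)⁻¹) (N j : ℕ) (hj : 1 ≤ j) :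
    ‖(((N + j).choose j : ℕ) : K)‖⁻¹ ≤ (N + j : ℕ) := by
  rw [norm_nat hp _ (Nat.choose_pos (by omega)).ne', inv_inv]
  have := Nat.pow_factorization_choose_le (p := p) (n := N + j) (k := j) (by omega)
  exact_mod_cast this

/-- the exponential -/
noncomputable def pexp (x : K) : K := ∑' n : ℕ, x ^ n / (n.factorial : ℕ)

theorem norm_term_le (hp : ‖(p : K)‖ = (p : ℝ)⁻¹) (x : K) (n : ℕ) :
    ‖x ^ n / ((n.factorial : ℕ) : K)‖ ≤ (‖x‖ * p) ^ n := by
  rw [div_eq_mul_inv, norm_mul, norm_pow, norm_inv, mul_pow]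
  exact mul_le_mul_of_nonneg_left (norm_inv_factorial hp n) (by positivity)

theorem summable_norm_term (hp : ‖(p : K)‖ = (p : ℝ)⁻¹) (x : K) (hx : ‖x‖ * p < 1) :
    Summable fun n : ℕ => ‖x ^ n / ((n.factorial : ℕ) : K)‖ :=
  Summable.of_nonneg_of_le (fun _ => norm_nonneg _) (norm_term_le hp x)
    (summable_geometric_of_lt_one (by positivity) hx)

variable [CompleteSpace K] [CharZero K]

theorem pexp_add (hp : ‖(p : K)‖ = (p : ℝ)⁻¹) (x y : K) (hx : ‖x‖ * p < 1) (hy : ‖y‖ * p < 1) :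
    pexp (x + y) = pexp x * pexp y := by
  unfold pexp
  rw [tsum_mul_tsum_eq_tsum_sum_antidiagonal_of_summable_norm (summable_norm_term hp x hx)
    (summable_norm_term hp y hy)]
  congr 1
  funext n
  rw [add_pow, Finset.sum_div, Finset.Nat.sum_antidiagonal_eq_sum_range_succ_mk]
  apply Finset.sum_congr rfl
  intro i hi
  have hi' : i ≤ n := Nat.lt_succ_iff.1 (Finset.mem_range.1 hi)
  have h1 := Nat.choose_mul_factorial_mul_factorial hi'
  have h2 : ((n.choose i : ℕ) : K) * ((i.factorial : ℕ) : K) * (((n - i).factorial : ℕ) : K) =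
      ((n.factorial : ℕ) : K) := by exact_mod_cast congrArg (Nat.cast : ℕ → K) h1
  have h3 : ((i.factorial : ℕ) : K) ≠ 0 := by exact_mod_cast Nat.factorial_ne_zero i
  have h4 : (((n - i).factorial : ℕ) : K) ≠ 0 := by exact_mod_cast Nat.factorial_ne_zero (n - i)
  have h5 : ((n.factorial : ℕ) : K) ≠ 0 := by exact_mod_cast Nat.factorial_ne_zero n
  rw [div_mul_div_comm, div_eq_div_iff h5 (mul_ne_zero h3 h4), ← h2]
  ring

omit hpr [CompleteSpace K] [CharZero K] [IsUltrametricDist K] in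
theorem pexp_zero : pexp (0 : K) = 1 := by
  unfold pexp
  rw [tsum_eq_single 0]
  · simp
  · intro n hn
    rw [zero_pow hn, zero_div]

theorem pexp_nat_mul (hp : ‖(p : K)‖ = (p : ℝ)⁻¹) (x : K) (hx : ‖x‖ * p < 1) (n : ℕ) :
    pexp (n * x) = pexp x ^ n := by
  induction n with
  | zero => simp [pexp_zero]
  | succ n ih =>
    have h1 : ‖(n : K) * x‖ * p < 1 := by
      rw [norm_mul]
      calc ‖(n : K)‖ * ‖x‖ * p ≤ 1 * ‖x‖ * p := by
            apply mul_le_mul_of_nonneg_right _ (by positivity)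
            exact mul_le_mul_of_nonneg_right (norm_nat_le n) (norm_nonneg _)
        _ < 1 := by rwa [one_mul]
    rw [pow_succ, ← ih, ← pexp_add hp _ _ h1 hx]
    congr 1
    push_cast
    ring

/-- expansion of one term -/
theorem term_expand (hp : ‖(p : K)‖ = (p : ℝ)⁻¹) (z : K) (hz : ‖z‖ * p < 1) (i k : ℕ) :
    Summable (fun l : ℕ => ((l.choose k : ℕ) : K) * (i : K) ^ (l - k) *
      (z ^ l / ((l.factorial : ℕ) : K))) ∧
    z ^ k / ((k.factorial : ℕ) : K) * pexp (i * z) =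
      ∑' l : ℕ, ((l.choose k : ℕ) : K) * (i : K) ^ (l - k) * (z ^ l / ((l.factorial : ℕ) : K)) := by
  have hs : Summable (fun l : ℕ => ((l.choose k : ℕ) : K) * (i : K) ^ (l - k) *
      (z ^ l / ((l.factorial : ℕ) : K))) := by
    apply Summable.of_norm
    apply Summable.of_nonneg_of_le (fun _ => norm_nonneg _) _ (summable_norm_term hp z hz)
    intro l
    rw [norm_mul, norm_mul, norm_pow]
    calc ‖((l.choose k : ℕ) : K)‖ * ‖(i : K)‖ ^ (l - k) * ‖z ^ l / ((l.factorial : ℕ) : K)‖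
        ≤ 1 * ‖z ^ l / ((l.factorial : ℕ) : K)‖ := by
          apply mul_le_mul_of_nonneg_right _ (norm_nonneg _)
          exact mul_le_one₀ (norm_nat_le _) (by positivity) (pow_le_one₀ (norm_nonneg _) (norm_nat_le i))
      _ = _ := one_mul _
  refine ⟨hs, ?_⟩
  rw [← hs.sum_add_tsum_nat_add k]
  have h0 : ∑ l ∈ range k, ((l.choose k : ℕ) : K) * (i : K) ^ (l - k) *
      (z ^ l / ((l.factorial : ℕ) : K)) = 0 := by
    apply Finset.sum_eq_zero
    intro l hl
    rw [Nat.choose_eq_zero_of_lt (Finset.mem_range.1 hl)]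
    simp
  rw [h0, zero_add, pexp, ← tsum_mul_left]
  congr 1
  funext r
  have h1 := Nat.add_choose_mul_factorial_mul_factorial r k
  have h2 : (((r + k).choose k : ℕ) : K) * ((r.factorial : ℕ) : K) * ((k.factorial : ℕ) : K) =
      (((r + k).factorial : ℕ) : K) := by
    have h3 : ((r + k).choose k) * r.factorial * k.factorial = (r + k).factorial := by
      rw [← h1]
    exact_mod_cast congrArg (Nat.cast : ℕ → K) h3
  have h3 : ((r.factorial : ℕ) : K) ≠ 0 := by exact_mod_cast Nat.factorial_ne_zero r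
  have h4 : ((k.factorial : ℕ) : K) ≠ 0 := by exact_mod_cast Nat.factorial_ne_zero k
  have h5 : (((r + k).factorial : ℕ) : K) ≠ 0 := by exact_mod_cast Nat.factorial_ne_zero (r + k)
  rw [Nat.add_sub_cancel, div_mul_div_comm, mul_pow, mul_div_assoc',
    div_eq_div_iff (mul_ne_zero h4 h3) h5, ← h2, pow_add]
  ring

/-- the tail is small -/
theorem tail_lt (hp : ‖(p : K)‖ = (p : ℝ)⁻¹) (z : K) (N : ℕ) (hz : ‖z‖ * p ≤ 1 / (2 * (N + 1)))
    (hz0 : z ≠ 0) (j : ℕ) (hj : 1 ≤ j) :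
    ‖z ^ (N + j) / (((N + j).factorial : ℕ) : K)‖ ≤
      1 / 2 * ‖z ^ N / ((N.factorial : ℕ) : K)‖ := by
  have h1 : (N + j).factorial = N.factorial * j.factorial * (N + j).choose j := by
    have := Nat.add_choose_mul_factorial_mul_factorial N j
    rw [← this]
    ring
  have h2 : z ^ (N + j) / (((N + j).factorial : ℕ) : K) =
      (z ^ N / ((N.factorial : ℕ) : K)) * (z ^ j / ((j.factorial : ℕ) : K)) *
        (((N + j).choose j : ℕ) : K)⁻¹ := by
    have h3 : (((N + j).factorial : ℕ) : K) = ((N.factorial : ℕ) : K) * ((j.factorial : ℕ) : K) *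
        (((N + j).choose j : ℕ) : K) := by exact_mod_cast congrArg (Nat.cast : ℕ → K) h1
    rw [h3, pow_add]
    field_simp
  rw [h2, norm_mul, norm_mul, norm_inv]
  have h3 := norm_term_le hp z j
  have h4 := norm_inv_choose (K := K) hp N j hj
  have h5 : (‖z‖ * p) ^ j * ((N + j : ℕ) : ℝ) ≤ 1 / 2 := by
    have hN : (0 : ℝ) < N + 1 := by positivity
    have h6 : (‖z‖ * p) ^ j ≤ (1 / (2 * (N + 1) : ℝ)) ^ j :=
      pow_le_pow_left₀ (by positivity) hz j
    have h7 : ((N + j : ℕ) : ℝ) ≤ (N + 1) * j := by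
      have : N + j ≤ (N + 1) * j := by nlinarith
      exact_mod_cast this
    calc (‖z‖ * p) ^ j * ((N + j : ℕ) : ℝ) ≤ (1 / (2 * (N + 1) : ℝ)) ^ j * ((N + 1) * j) :=
          mul_le_mul h6 h7 (by positivity) (by positivity)
      _ ≤ (1 / 2) ^ j * j := by
          obtain ⟨i, rfl⟩ := Nat.exists_eq_add_of_le' hj
          have h8 : (1 / (2 * (N + 1) : ℝ)) ^ (i + 1) * ((N + 1) * ((i + 1 : ℕ) : ℝ)) =
              ((1 / 2) ^ (i + 1) * ((i + 1 : ℕ) : ℝ)) * (1 / (N + 1 : ℝ)) ^ i := by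
            have : (1 / (2 * (N + 1) : ℝ)) = (1 / 2) * (1 / (N + 1)) := by
              field_simp
            rw [this, mul_pow, pow_succ (1 / (N + 1 : ℝ)) i]
            field_simp
          rw [h8]
          have h9 : (1 / (N + 1 : ℝ)) ^ i ≤ 1 := by
            apply pow_le_one₀ (by positivity)
            rw [div_le_one hN]
            linarith [(Nat.cast_nonneg N : (0 : ℝ) ≤ N)]
          calc _ ≤ ((1 / 2 : ℝ) ^ (i + 1) * ((i + 1 : ℕ) : ℝ)) * 1 :=
                mul_le_mul_of_nonneg_left h9 (by positivity)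
            _ = _ := mul_one _
      _ ≤ 1 / 2 := by
          have h10 : ∀ i : ℕ, ((i + 1 : ℕ) : ℝ) ≤ 2 ^ i := by
            intro i
            have : i + 1 ≤ 2 ^ i := Nat.lt_two_pow_self
            exact_mod_cast this
          obtain ⟨i, rfl⟩ := Nat.exists_eq_add_of_le' hj
          have h11 := h10 i
          rw [pow_succ, one_div, inv_pow]
          have h12 : (0 : ℝ) < 2 ^ i := by positivity
          calc ((2 : ℝ) ^ i)⁻¹ * 2⁻¹ * ((i + 1 : ℕ) : ℝ) ≤ ((2 : ℝ) ^ i)⁻¹ * 2⁻¹ * 2 ^ i :=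
                mul_le_mul_of_nonneg_left h11 (by positivity)
            _ = 2⁻¹ := by field_simp
  calc ‖z ^ N / ((N.factorial : ℕ) : K)‖ * ‖z ^ j / ((j.factorial : ℕ) : K)‖ *
        ‖(((N + j).choose j : ℕ) : K)‖⁻¹
      = ‖z ^ N / ((N.factorial : ℕ) : K)‖ * (‖z ^ j / ((j.factorial : ℕ) : K)‖ *
        ‖(((N + j).choose j : ℕ) : K)‖⁻¹) := by ring
    _ ≤ ‖z ^ N / ((N.factorial : ℕ) : K)‖ * ((‖z‖ * p) ^ j * ((N + j : ℕ) : ℝ)) := by
        apply mul_le_mul_of_nonneg_left _ (norm_nonneg _)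
        exact mul_le_mul h3 h4 (by positivity) (by positivity)
    _ ≤ ‖z ^ N / ((N.factorial : ℕ) : K)‖ * (1 / 2) :=
        mul_le_mul_of_nonneg_left h5 (norm_nonneg _)
    _ = _ := mul_comm _ _

/-- the size of a power series with leading term `z^N / N!` -/
theorem norm_series (hp : ‖(p : K)‖ = (p : ℝ)⁻¹) (z : K) (N : ℕ)
    (hz : ‖z‖ * p ≤ 1 / (2 * (N + 1))) (hz0 : z ≠ 0) (x : ℕ → ℤ) (hx0 : ∀ l < N, x l = 0)
    (hx1 : x N = 1) :
    ‖∑' l : ℕ, (x l : K) * (z ^ l / ((l.factorial : ℕ) : K))‖ =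
      ‖z ^ N / ((N.factorial : ℕ) : K)‖ := by
  have hz1 : ‖z‖ * p < 1 := by
    refine hz.trans_lt ?_
    rw [div_lt_one (by positivity)]
    have : (0 : ℝ) ≤ N := Nat.cast_nonneg N
    linarith
  have hs : Summable (fun l : ℕ => (x l : K) * (z ^ l / ((l.factorial : ℕ) : K))) := by
    apply Summable.of_norm
    apply Summable.of_nonneg_of_le (fun _ => norm_nonneg _) _ (summable_norm_term hp z hz1)
    intro l
    rw [norm_mul]
    calc ‖(x l : K)‖ * ‖z ^ l / ((l.factorial : ℕ) : K)‖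
        ≤ 1 * ‖z ^ l / ((l.factorial : ℕ) : K)‖ :=
          mul_le_mul_of_nonneg_right (norm_int_le _) (norm_nonneg _)
      _ = _ := one_mul _
  rw [← hs.sum_add_tsum_nat_add (N + 1), Finset.sum_range_succ]
  have h0 : ∑ l ∈ range N, (x l : K) * (z ^ l / ((l.factorial : ℕ) : K)) = 0 := by
    apply Finset.sum_eq_zero
    intro l hl
    rw [hx0 l (Finset.mem_range.1 hl)]
    simp
  rw [h0, zero_add, hx1, Int.cast_one, one_mul]
  have hpos : 0 < ‖z ^ N / ((N.factorial : ℕ) : K)‖ := by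
    rw [norm_pos_iff]
    apply div_ne_zero (pow_ne_zero _ hz0)
    exact_mod_cast Nat.factorial_ne_zero N
  have h1 : ‖∑' i : ℕ, (x (i + (N + 1)) : K) *
      (z ^ (i + (N + 1)) / (((i + (N + 1)).factorial : ℕ) : K))‖ <
      ‖z ^ N / ((N.factorial : ℕ) : K)‖ := by
    refine lt_of_le_of_lt (IsUltrametricDist.norm_tsum_le _) ?_
    refine lt_of_le_of_lt (ciSup_le (fun i => ?_)) (b := 1 / 2 * ‖z ^ N / ((N.factorial : ℕ) : K)‖) ?_
    · rw [norm_mul]
      have h2 := tail_lt hp z N hz hz0 (i + 1) (by omega)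
      have h3 : N + (i + 1) = i + (N + 1) := by ring
      rw [h3] at h2
      calc ‖(x (i + (N + 1)) : K)‖ * ‖z ^ (i + (N + 1)) / (((i + (N + 1)).factorial : ℕ) : K)‖
          ≤ 1 * ‖z ^ (i + (N + 1)) / (((i + (N + 1)).factorial : ℕ) : K)‖ :=
            mul_le_mul_of_nonneg_right (norm_int_le _) (norm_nonneg _)
        _ ≤ _ := by rw [one_mul]; exact h2
    · linarith
  rw [IsUltrametricDist.norm_add_eq_max_of_norm_ne_norm h1.ne', max_eq_left h1.le]

/-- the main analytic statement -/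
theorem form_norm (hp : ‖(p : K)‖ = (p : ℝ)⁻¹) (m n : ℕ) (z : K)
    (hz : ‖z‖ * p ≤ 1 / (2 * (((m + 1) * n + m : ℕ) + 1))) (hz0 : z ≠ 0) (Z : ℕ → ℕ → ℤ)
    (x : ℕ → ℤ) (hx0 : ∀ l < (m + 1) * n + m, x l = 0) (hx1 : x ((m + 1) * n + m) = 1)
    (hZ : ∀ l, ∑ i ∈ range (m + 1), ∑ k ∈ range (n + 1),
      Z i k * (l.choose k : ℤ) * (i : ℤ) ^ (l - k) =
      (m.factorial : ℤ) ^ ((m + 1) * n + m) * x l) :
    ‖∑ i ∈ range (m + 1), ∑ k ∈ range (n + 1),
      (Z i k : K) * (z ^ k / ((k.factorial : ℕ) : K) * pexp (i * z))‖ =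
      ‖((m.factorial : ℕ) : K)‖ ^ ((m + 1) * n + m) *
        ‖z ^ ((m + 1) * n + m) / ((((m + 1) * n + m).factorial : ℕ) : K)‖ := by
  set N := (m + 1) * n + m with hN
  have hz1 : ‖z‖ * p < 1 := by
    refine hz.trans_lt ?_
    rw [div_lt_one (by positivity)]
    have : (0 : ℝ) ≤ N := Nat.cast_nonneg N
    linarith
  have h1 : ∑ i ∈ range (m + 1), ∑ k ∈ range (n + 1),
      (Z i k : K) * (z ^ k / ((k.factorial : ℕ) : K) * pexp (i * z)) =
      ((m.factorial : ℕ) : K) ^ N * ∑' l : ℕ, (x l : K) * (z ^ l / ((l.factorial : ℕ) : K)) := by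
    have h2 : ∀ i k, (Z i k : K) * (z ^ k / ((k.factorial : ℕ) : K) * pexp (i * z)) =
        ∑' l : ℕ, (Z i k : K) * (((l.choose k : ℕ) : K) * (i : K) ^ (l - k) *
          (z ^ l / ((l.factorial : ℕ) : K))) := by
      intro i k
      rw [(term_expand hp z hz1 i k).2, tsum_mul_left]
    have hs : ∀ i k, Summable (fun l : ℕ => (Z i k : K) * (((l.choose k : ℕ) : K) *
        (i : K) ^ (l - k) * (z ^ l / ((l.factorial : ℕ) : K)))) := by
      intro i k
      exact (term_expand hp z hz1 i k).1.mul_left _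
    rw [← tsum_mul_left]
    rw [Finset.sum_congr rfl fun i _ => Finset.sum_congr rfl fun k _ => h2 i k]
    rw [Finset.sum_congr rfl fun i _ => (Summable.tsum_finsetSum fun k _ => hs i k).symm]
    rw [← Summable.tsum_finsetSum fun i _ => summable_sum fun k _ => hs i k]
    congr 1
    funext l
    have h3 : ∑ i ∈ range (m + 1), ∑ k ∈ range (n + 1),
        (Z i k : K) * ((l.choose k : ℕ) : K) * (i : K) ^ (l - k) =
        ((m.factorial : ℕ) : K) ^ N * (x l : K) := by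
      exact_mod_cast congrArg (Int.cast : ℤ → K) (hZ l)
    rw [← mul_assoc, ← h3, Finset.sum_mul]
    refine Finset.sum_congr rfl fun i _ => ?_
    rw [Finset.sum_mul]
    refine Finset.sum_congr rfl fun k _ => ?_
    ring
  rw [h1, norm_mul, norm_pow, norm_series hp z N hz hz0 x hx0 hx1]

end analytic

end Pool.Agent.Lib.PadicLindemann
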