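import Mathlib

/-!
# Hermite-Pade forms of exponentials: the coefficients

For `m, n` there are integers `Z i k` (`i ≤ m`, `k ≤ n`), at most `(3 m!)^N` in total, with
`∑ Z i k * C(l,k) * i^(l-k) = m!^N * x l`, where `x l` is an integer, zero for `l < N` and one for
`l = N`; here `N = (m+1)(n+1) - 1`.
-/

set_option autoImplicit false

namespace Pool.Agent.Lib.PadicLindemann

open Finset

/-- the sequences `C(l,k) i^(l-k)` -/
def ee (i k : ℕ) : ℕ → ℚ := fun l => (l.choose k : ℚ) * (i : ℚ) ^ (l - k)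

/-- multiplication by `t / (1 - j t)` -/
def SS (j : ℕ) (x : ℕ → ℚ) : ℕ → ℚ
  | 0 => 0
  | l + 1 => x l + j * SS j x l

theorem SS_zero (j : ℕ) (x : ℕ → ℚ) : SS j x 0 = 0 := rfl

theorem SS_succ (j : ℕ) (x : ℕ → ℚ) (l : ℕ) : SS j x (l + 1) = x l + j * SS j x l := rfl

theorem SS_unique (j : ℕ) (x y : ℕ → ℚ) (h0 : y 0 = 0) (h : ∀ l, y (l + 1) = x l + j * y l) :
    SS j x = y := by
  funext l
  induction l with
  | zero => rw [SS_zero, h0]
  | succ l ih => rw [SS_succ, h, ih]

/-- linear form of `SS` -/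
def SSl (j : ℕ) : (ℕ → ℚ) →ₗ[ℚ] (ℕ → ℚ) where
  toFun := SS j
  map_add' x y := by
    apply SS_unique
    · simp [SS_zero]
    · intro l
      simp only [Pi.add_apply, SS_succ]
      ring
  map_smul' c x := by
    apply SS_unique
    · simp [SS_zero]
    · intro l
      simp only [Pi.smul_apply, SS_succ, smul_eq_mul, RingHom.id_apply]
      ring

theorem ee_zero (i k : ℕ) : ee i (k + 1) 0 = 0 := by
  simp [ee]

theorem ee_succ (i k l : ℕ) : ee i (k + 1) (l + 1) = ee i k l + i * ee i (k + 1) l := by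
  unfold ee
  rw [Nat.choose_succ_succ, Nat.add_sub_add_right]
  push_cast
  rcases Nat.lt_or_ge k l with h | h
  · obtain ⟨d, rfl⟩ := Nat.exists_eq_add_of_lt h
    have h1 : k + d + 1 - k = d + 1 := by omega
    have h2 : k + d + 1 - (k + 1) = d := by omega
    rw [h1, h2, pow_succ]
    ring
  · have : l.choose (k + 1) = 0 := Nat.choose_eq_zero_of_lt (by omega)
    rw [this]
    simp

theorem ee_zero_succ (i l : ℕ) : ee i 0 (l + 1) = i * ee i 0 l := by
  unfold ee
  simp only [Nat.choose_zero_right, Nat.sub_zero]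
  rw [pow_succ]
  ring

theorem SS_ee_same (i k : ℕ) : SS i (ee i k) = ee i (k + 1) :=
  SS_unique _ _ _ (ee_zero i k) (ee_succ i k)

theorem SS_ee_zero {i j : ℕ} (h : i ≠ j) :
    SS j (ee i 0) = ((i : ℚ) - j)⁻¹ • (ee i 0 - ee j 0) := by
  have h' : (i : ℚ) - j ≠ 0 := sub_ne_zero.2 (Nat.cast_injective.ne h)
  apply SS_unique
  · simp [ee]
  · intro l
    simp only [Pi.smul_apply, Pi.sub_apply, smul_eq_mul, ee_zero_succ]
    field_simp
    ring

theorem SS_ee_succ {i j : ℕ} (h : i ≠ j) (k : ℕ) :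
    SS j (ee i (k + 1)) = ((i : ℚ) - j)⁻¹ • (ee i (k + 1) - SS j (ee i k)) := by
  have h' : (i : ℚ) - j ≠ 0 := sub_ne_zero.2 (Nat.cast_injective.ne h)
  apply SS_unique
  · simp [ee_zero, SS_zero]
  · intro l
    simp only [Pi.smul_apply, Pi.sub_apply, smul_eq_mul, ee_succ, SS_succ]
    field_simp
    ring

/-- the coefficient space -/
abbrev CC : Type := (ℕ × ℕ) →₀ ℚ

/-- the action of `t / (1 - j t)` on coefficients, on the basis -/
noncomputable def Tb (j i : ℕ) : ℕ → CC
  | 0 => if i = j then Finsupp.single (j, 1) 1 else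
      ((i : ℚ) - j)⁻¹ • (Finsupp.single (i, 0) 1 - Finsupp.single (j, 0) 1)
  | k + 1 => if i = j then Finsupp.single (j, k + 2) 1 else
      ((i : ℚ) - j)⁻¹ • (Finsupp.single (i, k + 1) 1 - Tb j i k)

/-- the action on coefficients -/
noncomputable def TT (j : ℕ) : CC →ₗ[ℚ] CC :=
  Finsupp.linearCombination ℚ (fun ik : ℕ × ℕ => Tb j ik.1 ik.2)

/-- evaluation -/
noncomputable def ev : CC →ₗ[ℚ] (ℕ → ℚ) :=
  Finsupp.linearCombination ℚ (fun ik : ℕ × ℕ => ee ik.1 ik.2)

theorem ev_single (ik : ℕ × ℕ) : ev (Finsupp.single ik 1) = ee ik.1 ik.2 := by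
  simp [ev]

theorem ev_Tb (j i k : ℕ) : ev (Tb j i k) = SS j (ee i k) := by
  induction k with
  | zero =>
    unfold Tb
    split_ifs with h
    · subst h
      rw [ev_single, SS_ee_same]
    · rw [SS_ee_zero h, map_smul, map_sub, ev_single, ev_single]
  | succ k ih =>
    unfold Tb
    split_ifs with h
    · subst h
      rw [ev_single, SS_ee_same]
    · rw [SS_ee_succ h, map_smul, map_sub, ev_single, ih]

theorem ev_TT (j : ℕ) (c : CC) : ev (TT j c) = SSl j (ev c) := by
  have : ev.comp (TT j) = (SSl j).comp ev := by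
    apply Finsupp.lhom_ext'
    intro ik
    ext1
    simp only [LinearMap.comp_apply, Finsupp.lsingle_apply]
    rw [ev_single, TT, Finsupp.linearCombination_single, one_smul, ev_Tb]
    rfl
  exact LinearMap.congr_fun this c

/-- the norm -/
noncomputable def nn (c : CC) : ℚ := ∑ ik ∈ c.support, |c ik| * 2 ^ ik.2

theorem nn_eq (c : CC) (s : Finset (ℕ × ℕ)) (hs : c.support ⊆ s) :
    nn c = ∑ ik ∈ s, |c ik| * 2 ^ ik.2 := by
  unfold nn
  apply Finset.sum_subset hs
  intro x _ hx
  rw [Finsupp.notMem_support_iff.1 hx]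
  simp

theorem nn_nonneg (c : CC) : 0 ≤ nn c :=
  Finset.sum_nonneg fun _ _ => by positivity

theorem nn_add (a b : CC) : nn (a + b) ≤ nn a + nn b := by
  classical
  rw [nn_eq (a + b) (a.support ∪ b.support) Finsupp.support_add,
    nn_eq a (a.support ∪ b.support) Finset.subset_union_left,
    nn_eq b (a.support ∪ b.support) Finset.subset_union_right, ← Finset.sum_add_distrib]
  apply Finset.sum_le_sum
  intro ik _
  rw [← add_mul]
  apply mul_le_mul_of_nonneg_right _ (by positivity)
  exact abs_add_le _ _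

theorem nn_smul (q : ℚ) (a : CC) : nn (q • a) = |q| * nn a := by
  rw [nn_eq (q • a) a.support Finsupp.support_smul, nn, Finset.mul_sum]
  apply Finset.sum_congr rfl
  intro ik _
  rw [Finsupp.smul_apply, smul_eq_mul, abs_mul]
  ring

theorem nn_sub (a b : CC) : nn (a - b) ≤ nn a + nn b := by
  have h1 : nn (-b) = nn b := by
    have := nn_smul (-1) b
    simpa using this
  rw [sub_eq_add_neg, ← h1]
  exact nn_add _ _

theorem nn_zero : nn 0 = 0 := by simp [nn]

theorem nn_sum {ι : Type*} (s : Finset ι) (f : ι → CC) : nn (∑ i ∈ s, f i) ≤ ∑ i ∈ s, nn (f i) :=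
  Finset.le_sum_of_subadditive nn nn_zero.le nn_add s f

theorem nn_single (ik : ℕ × ℕ) : nn (Finsupp.single ik 1) = 2 ^ ik.2 := by
  rw [nn_eq _ {ik} (by
    intro x hx
    rw [Finsupp.mem_support_iff, Finsupp.single_apply] at hx
    by_contra h
    apply hx
    rw [if_neg]
    intro h'
    apply h
    rw [h']
    exact Finset.mem_singleton_self _)]
  simp

theorem abs_inv_le {i j : ℕ} (h : i ≠ j) : |((i : ℚ) - j)⁻¹| ≤ 1 := by
  rw [abs_inv]
  apply inv_le_one_of_one_le₀
  have h1 : (1 : ℤ) ≤ |(i : ℤ) - j| := by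
    apply Int.one_le_abs
    omega
  exact_mod_cast h1

theorem nn_Tb' {i j : ℕ} (h : i ≠ j) (k : ℕ) : nn (Tb j i k) ≤ 2 ^ (k + 1) + 1 - 1 := by
  induction k with
  | zero =>
    unfold Tb
    rw [if_neg h, nn_smul]
    calc |((i : ℚ) - j)⁻¹| * nn (Finsupp.single (i, 0) 1 - Finsupp.single (j, 0) 1)
        ≤ 1 * (nn (Finsupp.single (i, 0) 1) + nn (Finsupp.single (j, 0) 1)) :=
          mul_le_mul (abs_inv_le h) (nn_sub _ _) (nn_nonneg _) zero_le_one
      _ ≤ _ := by
          rw [nn_single, nn_single]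
          norm_num
  | succ k ih =>
    unfold Tb
    rw [if_neg h, nn_smul]
    calc |((i : ℚ) - j)⁻¹| * nn (Finsupp.single (i, k + 1) 1 - Tb j i k)
        ≤ 1 * (nn (Finsupp.single (i, k + 1) 1) + nn (Tb j i k)) :=
          mul_le_mul (abs_inv_le h) (nn_sub _ _) (nn_nonneg _) zero_le_one
      _ ≤ _ := by
          rw [nn_single]
          have : (2 : ℚ) ^ (k + 1 + 1) = 2 * 2 ^ (k + 1) := by ring
          linarith

theorem nn_Tb (j i k : ℕ) : nn (Tb j i k) ≤ 3 * 2 ^ k := by
  by_cases h : i = j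
  · subst h
    have h1 : Tb i i k = Finsupp.single (i, k + 1) 1 := by
      cases k <;> simp [Tb]
    rw [h1, nn_single]
    have : (2 : ℚ) ^ (k + 1) = 2 * 2 ^ k := by ring
    have h2 : (0 : ℚ) < 2 ^ k := by positivity
    simp only [this]
    linarith
  · have h1 := nn_Tb' h k
    have : (2 : ℚ) ^ (k + 1) = 2 * 2 ^ k := by ring
    have h2 : (0 : ℚ) < 2 ^ k := by positivity
    linarith

theorem TT_apply (j : ℕ) (c : CC) : TT j c = ∑ ik ∈ c.support, c ik • Tb j ik.1 ik.2 := by
  rw [TT, Finsupp.linearCombination_apply, Finsupp.sum]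

theorem nn_TT (j : ℕ) (c : CC) : nn (TT j c) ≤ 3 * nn c := by
  rw [TT_apply]
  refine (nn_sum _ _).trans ?_
  rw [nn, Finset.mul_sum]
  apply Finset.sum_le_sum
  intro ik _
  rw [nn_smul]
  calc |c ik| * nn (Tb j ik.1 ik.2) ≤ |c ik| * (3 * 2 ^ ik.2) :=
        mul_le_mul_of_nonneg_left (nn_Tb _ _ _) (abs_nonneg _)
    _ = _ := by ring

/-- integrality with denominator `D ^ (E - k)` -/
def II (D E : ℕ) (c : CC) : Prop := ∀ ik, ∃ z : ℤ, c ik * (D : ℚ) ^ E = z * (D : ℚ) ^ ik.2

theorem II_add {D E : ℕ} {a b : CC} (ha : II D E a) (hb : II D E b) : II D E (a + b) := by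
  intro ik
  obtain ⟨z, hz⟩ := ha ik
  obtain ⟨w, hw⟩ := hb ik
  refine ⟨z + w, ?_⟩
  rw [Finsupp.add_apply, add_mul, hz, hw]
  push_cast
  ring

theorem II_neg {D E : ℕ} {a : CC} (ha : II D E a) : II D E (-a) := by
  intro ik
  obtain ⟨z, hz⟩ := ha ik
  refine ⟨-z, ?_⟩
  rw [Finsupp.neg_apply, neg_mul, hz]
  push_cast
  ring

theorem II_sub {D E : ℕ} {a b : CC} (ha : II D E a) (hb : II D E b) : II D E (a - b) := by
  rw [sub_eq_add_neg]
  exact II_add ha (II_neg hb)

theorem II_zero (D E : ℕ) : II D E 0 := fun _ => ⟨0, by simp⟩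

theorem II_sum {D E : ℕ} {ι : Type*} (s : Finset ι) (f : ι → CC) (h : ∀ i ∈ s, II D E (f i)) :
    II D E (∑ i ∈ s, f i) := by
  classical
  induction s using Finset.induction_on with
  | empty => simpa using II_zero D E
  | insert a s ha ih =>
    rw [Finset.sum_insert ha]
    exact II_add (h a (Finset.mem_insert_self _ _))
      (ih fun i hi => h i (Finset.mem_insert_of_mem hi))

theorem II_succ {D E : ℕ} {a : CC} (ha : II D E a) : II D (E + 1) a := by
  intro ik
  obtain ⟨z, hz⟩ := ha ik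
  refine ⟨z * D, ?_⟩
  rw [pow_succ, ← mul_assoc, hz]
  push_cast
  ring

theorem II_single (D i k : ℕ) : II D k (Finsupp.single (i, k) 1) := by
  classical
  intro ik
  rw [Finsupp.single_apply]
  split_ifs with h
  · subst h
    exact ⟨1, by simp⟩
  · exact ⟨0, by simp⟩

theorem II_div {D E m i j : ℕ} (hD : ∀ w : ℕ, 1 ≤ w → w ≤ m → w ∣ D) (hi : i ≤ m) (hj : j ≤ m)
    (hij : i ≠ j) {a : CC} (ha : II D E a) : II D (E + 1) (((i : ℚ) - j)⁻¹ • a) := by
  intro ik
  obtain ⟨z, hz⟩ := ha ik
  have h' : (i : ℚ) - j ≠ 0 := sub_ne_zero.2 (Nat.cast_injective.ne hij)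
  have h1 : ((i : ℤ) - j) ∣ (D : ℤ) := by
    have h2 := hD ((i : ℤ) - j).natAbs (by omega) (by omega)
    have h3 : (((i : ℤ) - j).natAbs : ℤ) ∣ (D : ℤ) := by exact_mod_cast h2
    rwa [Int.natCast_natAbs, abs_dvd] at h3
  obtain ⟨w, hw⟩ := h1
  have hw' : (D : ℚ) = ((i : ℚ) - j) * w := by exact_mod_cast hw
  refine ⟨z * w, ?_⟩
  rw [Finsupp.smul_apply, smul_eq_mul, pow_succ]
  have h3 : ((i : ℚ) - j)⁻¹ * (D : ℚ) = w := by
    rw [hw', ← mul_assoc, inv_mul_cancel₀ h', one_mul]
  calc ((i : ℚ) - j)⁻¹ * a ik * ((D : ℚ) ^ E * D)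
      = (((i : ℚ) - j)⁻¹ * D) * (a ik * (D : ℚ) ^ E) := by ring
    _ = w * (z * (D : ℚ) ^ ik.2) := by rw [h3, hz]
    _ = _ := by push_cast; ring

theorem II_Tb {D m i j : ℕ} (hD : ∀ w : ℕ, 1 ≤ w → w ≤ m → w ∣ D) (hi : i ≤ m) (hj : j ≤ m)
    (k : ℕ) : II D (k + 1) (Tb j i k) := by
  induction k with
  | zero =>
    unfold Tb
    split_ifs with h
    · exact II_single D j 1
    · exact II_div hD hi hj h (II_sub (II_single D i 0) (II_single D j 0))
  | succ k ih =>
    unfold Tb
    split_ifs with h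
    · exact II_single D j (k + 2)
    · exact II_div hD hi hj h (II_sub (II_single D i (k + 1)) ih)

/-- support condition -/
def Supp (r : ℕ → ℕ) (c : CC) : Prop := ∀ ik, c ik ≠ 0 → ik.2 < r ik.1

theorem II_TT {D m E j : ℕ} (hD : ∀ w : ℕ, 1 ≤ w → w ≤ m → w ∣ D) (hj : j ≤ m) {c : CC}
    (hc : II D E c) {r : ℕ → ℕ} (hr : ∀ i, m < i → r i = 0) (hs : Supp r c) :
    II D (E + 1) (TT j c) := by
  rw [TT_apply]
  apply II_sum
  intro ik hik ik'
  have h1 := hs ik (Finsupp.mem_support_iff.1 hik)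
  have h2 : ik.1 ≤ m := by
    by_contra h
    have := hr ik.1 (by omega)
    omega
  obtain ⟨z, hz⟩ := hc ik
  obtain ⟨z', hz'⟩ := II_Tb hD h2 hj ik.2 ik'
  refine ⟨z * z', ?_⟩
  rw [Finsupp.smul_apply, smul_eq_mul]
  calc c ik * (Tb j ik.1 ik.2) ik' * (D : ℚ) ^ (E + 1)
      = (c ik * (D : ℚ) ^ E) * (Tb j ik.1 ik.2) ik' * D := by ring
    _ = z * ((Tb j ik.1 ik.2) ik' * (D : ℚ) ^ (ik.2 + 1)) := by rw [hz]; ring
    _ = _ := by rw [hz']; push_cast; ring

theorem Supp_single {r : ℕ → ℕ} {i k : ℕ} (h : k < r i) : Supp r (Finsupp.single (i, k) 1) := by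
  classical
  intro ik hik
  rw [Finsupp.single_apply] at hik
  have : (i, k) = ik := by
    by_contra h'
    rw [if_neg h'] at hik
    exact hik rfl
  subst this
  exact h

theorem Supp_sub {r : ℕ → ℕ} {a b : CC} (ha : Supp r a) (hb : Supp r b) : Supp r (a - b) := by
  intro ik hik
  by_cases h : a ik = 0
  · apply hb ik
    intro h'
    apply hik
    rw [Finsupp.sub_apply, h, h', sub_zero]
  · exact ha ik h

theorem Supp_smul {r : ℕ → ℕ} {a : CC} (q : ℚ) (ha : Supp r a) : Supp r (q • a) := by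
  intro ik hik
  apply ha ik
  intro h
  apply hik
  rw [Finsupp.smul_apply, h, smul_zero]

theorem Supp_sum {r : ℕ → ℕ} {ι : Type*} (s : Finset ι) (f : ι → CC)
    (h : ∀ i ∈ s, Supp r (f i)) : Supp r (∑ i ∈ s, f i) := by
  intro ik hik
  by_contra hcon
  apply hik
  rw [Finsupp.finsetSum_apply]
  apply Finset.sum_eq_zero
  intro i hi
  by_contra h'
  exact hcon (h i hi ik h')

/-- the new support -/
def upd (r : ℕ → ℕ) (j : ℕ) : ℕ → ℕ := fun a => r a + if a = j then 1 else 0

theorem Supp_Tb {r : ℕ → ℕ} {i j k : ℕ} (h : k < r i) : Supp (upd r j) (Tb j i k) := by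
  induction k with
  | zero =>
    unfold Tb
    split_ifs with hij
    · apply Supp_single
      subst hij
      simp [upd, h]
    · apply Supp_smul
      apply Supp_sub
      · apply Supp_single
        unfold upd
        omega
      · apply Supp_single
        simp [upd]
  | succ k ih =>
    unfold Tb
    split_ifs with hij
    · apply Supp_single
      subst hij
      simp only [upd, if_true]
      omega
    · apply Supp_smul
      apply Supp_sub
      · apply Supp_single
        unfold upd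
        omega
      · exact ih (by omega)

theorem Supp_TT {r : ℕ → ℕ} {j : ℕ} {c : CC} (hc : Supp r c) : Supp (upd r j) (TT j c) := by
  rw [TT_apply]
  apply Supp_sum
  intro ik hik
  apply Supp_smul
  exact Supp_Tb (hc ik (Finsupp.mem_support_iff.1 hik))

/-- the coefficients for a list of nodes -/
noncomputable def cL : List ℕ → CC
  | [] => Finsupp.single (0, 0) 1
  | j :: L => TT j (cL L)

/-- the values for a list of nodes -/
def xL : List ℕ → ℕ → ℚ
  | [] => ee 0 0
  | j :: L => SS j (xL L)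

theorem ev_cL (L : List ℕ) : ev (cL L) = xL L := by
  induction L with
  | nil => exact ev_single _
  | cons j L ih =>
    rw [cL, xL, ev_TT, ih]
    rfl

theorem nn_cL (L : List ℕ) : nn (cL L) ≤ 3 ^ L.length := by
  induction L with
  | nil => rw [cL, nn_single]; simp
  | cons j L ih =>
    rw [cL, List.length_cons, pow_succ]
    have := nn_TT j (cL L)
    linarith

theorem Supp_cL (L : List ℕ) : Supp (fun i => L.count i + if i = 0 then 1 else 0) (cL L) := by
  induction L with
  | nil =>
    apply Supp_single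
    simp
  | cons j L ih =>
    rw [cL]
    have := Supp_TT (j := j) ih
    intro ik hik
    have h1 := this ik hik
    unfold upd at h1
    beta_reduce at h1 ⊢
    rw [List.count_cons]
    have h2 : (if (j == ik.1) = true then 1 else 0) = (if ik.1 = j then 1 else 0) := by
      by_cases h : ik.1 = j
      · simp [h]
      · have : ¬ j = ik.1 := fun e => h e.symm
        simp [h, this]
    rw [h2]
    omega

theorem II_cL {D m : ℕ} (hD : ∀ w : ℕ, 1 ≤ w → w ≤ m → w ∣ D) (L : List ℕ)
    (hL : ∀ j ∈ L, j ≤ m) : II D L.length (cL L) := by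
  induction L with
  | nil => exact II_single D 0 0
  | cons j L ih =>
    rw [cL, List.length_cons]
    apply II_TT hD (hL j (List.mem_cons_self)) (ih fun i hi => hL i (List.mem_cons_of_mem _ hi))
      (r := fun i => L.count i + if i = 0 then 1 else 0) _ (Supp_cL L)
    intro i hi
    have h1 : L.count i = 0 := by
      rw [List.count_eq_zero]
      intro h
      have := hL i (List.mem_cons_of_mem _ h)
      omega
    have h2 : i ≠ 0 := by omega
    simp [h1, h2]

theorem xL_int (L : List ℕ) (l : ℕ) : ∃ z : ℤ, xL L l = z := by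
  induction L generalizing l with
  | nil => exact ⟨(l.choose 0 : ℤ) * 0 ^ (l - 0), by simp [xL, ee]⟩
  | cons j L ih =>
    rw [xL]
    induction l with
    | zero => exact ⟨0, by simp [SS_zero]⟩
    | succ l ih2 =>
      obtain ⟨z, hz⟩ := ih l
      obtain ⟨w, hw⟩ := ih2
      refine ⟨z + j * w, ?_⟩
      rw [SS_succ, hz, hw]
      push_cast
      rfl

theorem xL_lt (L : List ℕ) (l : ℕ) (h : l < L.length) : xL L l = 0 := by
  induction L generalizing l with
  | nil => simp at h
  | cons j L ih =>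
    rw [xL]
    rw [List.length_cons] at h
    induction l with
    | zero => rfl
    | succ l ih2 =>
      rw [SS_succ, ih l (by omega), ih2 (by omega)]
      simp

theorem xL_eq (L : List ℕ) : xL L L.length = 1 := by
  induction L with
  | nil => simp [xL, ee]
  | cons j L ih =>
    rw [List.length_cons, xL, SS_succ, ih]
    have : SS j (xL L) L.length = xL (j :: L) L.length := rfl
    rw [this, xL_lt _ _ (by simp)]
    simp

/-- the nodes -/
def nodes (n : ℕ) : ℕ → List ℕ
  | 0 => List.replicate n 0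
  | m + 1 => List.replicate (n + 1) (m + 1) ++ nodes n m

theorem nodes_length (n m : ℕ) : (nodes n m).length = (m + 1) * n + m := by
  induction m with
  | zero => simp [nodes]
  | succ m ih =>
    rw [nodes, List.length_append, ih, List.length_replicate]
    ring

theorem nodes_le (n m : ℕ) : ∀ j ∈ nodes n m, j ≤ m := by
  induction m with
  | zero =>
    intro j hj
    rw [nodes] at hj
    exact (List.eq_of_mem_replicate hj).le
  | succ m ih =>
    intro j hj
    rw [nodes, List.mem_append] at hj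
    rcases hj with hj | hj
    · exact (List.eq_of_mem_replicate hj).le
    · exact (ih j hj).trans (Nat.le_succ m)

theorem nodes_count (n m i : ℕ) (hi : i ≤ m) :
    (nodes n m).count i + (if i = 0 then 1 else 0) = n + 1 := by
  induction m with
  | zero =>
    have : i = 0 := by omega
    subst this
    simp [nodes]
  | succ m ih =>
    rw [nodes, List.count_append]
    rcases Nat.lt_or_ge m i with h | h
    · have hi' : i = m + 1 := by omega
      subst hi'
      have h1 : (nodes n m).count (m + 1) = 0 := by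
        rw [List.count_eq_zero]
        intro h
        have := nodes_le n m _ h
        omega
      rw [h1, List.count_replicate_self]
      simp
    · have h1 : (List.replicate (n + 1) (m + 1)).count i = 0 := by
        rw [List.count_eq_zero]
        intro h
        have := List.eq_of_mem_replicate h
        omega
      rw [h1, zero_add]
      exact ih h

theorem exists_coeffs (m n : ℕ) : ∃ (Z : ℕ → ℕ → ℤ) (x : ℕ → ℤ),
    (∑ i ∈ range (m + 1), ∑ k ∈ range (n + 1), |Z i k| ≤
      (3 * (m.factorial : ℤ)) ^ ((m + 1) * n + m)) ∧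
    (∀ l < (m + 1) * n + m, x l = 0) ∧ x ((m + 1) * n + m) = 1 ∧
    ∀ l, ∑ i ∈ range (m + 1), ∑ k ∈ range (n + 1), Z i k * (l.choose k : ℤ) * (i : ℤ) ^ (l - k) =
      (m.factorial : ℤ) ^ ((m + 1) * n + m) * x l := by
  classical
  set L := nodes n m with hL
  have hlen : L.length = (m + 1) * n + m := nodes_length n m
  set N := (m + 1) * n + m with hN
  set D := m.factorial with hD
  have hDdvd : ∀ w : ℕ, 1 ≤ w → w ≤ m → w ∣ D := fun w h1 h2 => Nat.dvd_factorial (by omega) h2
  have hDpos : (0 : ℚ) < D := by exact_mod_cast Nat.factorial_pos m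
  have hII := II_cL hDdvd L (nodes_le n m)
  rw [hlen] at hII
  choose z hz using hII
  choose x hx using xL_int L
  have hsupp : (cL L).support ⊆ range (m + 1) ×ˢ range (n + 1) := by
    intro ik hik
    have h1 := Supp_cL L ik (Finsupp.mem_support_iff.1 hik)
    beta_reduce at h1
    have h2 : ik.1 ≤ m := by
      by_contra h
      have h3 : L.count ik.1 = 0 := by
        rw [List.count_eq_zero]
        intro h'
        have := nodes_le n m _ h'
        omega
      have h4 : ik.1 ≠ 0 := by omega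
      simp only [h3, h4, if_false] at h1
      omega
    have h3 := nodes_count n m ik.1 h2
    rw [← hL] at h3
    rw [Finset.mem_product, Finset.mem_range, Finset.mem_range]
    omega
  refine ⟨fun i k => z (i, k) * (D : ℤ) ^ k, x, ?_, ?_, ?_, ?_⟩
  · have h1 : nn (cL L) ≤ 3 ^ N := by
      have := nn_cL L
      rwa [hlen] at this
    rw [nn_eq _ _ hsupp, Finset.sum_product] at h1
    have h2 : ((∑ i ∈ range (m + 1), ∑ k ∈ range (n + 1), |z (i, k) * (D : ℤ) ^ k| : ℤ) : ℚ) ≤
        (3 * (D : ℚ)) ^ N := by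
      push_cast
      have h3 : ∀ i k, |(z (i, k) : ℚ) * (D : ℚ) ^ k| ≤
          (|(cL L) (i, k)| * 2 ^ k) * (D : ℚ) ^ N := by
        intro i k
        have := hz (i, k)
        simp only at this
        rw [← this, abs_mul, abs_of_pos (pow_pos hDpos N)]
        have h4 : (1 : ℚ) ≤ 2 ^ k := one_le_pow₀ (by norm_num)
        have h5 : 0 ≤ |(cL L) (i, k)| * (D : ℚ) ^ N := by positivity
        calc |(cL L) (i, k)| * (D : ℚ) ^ N = |(cL L) (i, k)| * (D : ℚ) ^ N * 1 := by ring
          _ ≤ |(cL L) (i, k)| * (D : ℚ) ^ N * 2 ^ k := mul_le_mul_of_nonneg_left h4 h5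
          _ = _ := by ring
      calc ∑ i ∈ range (m + 1), ∑ k ∈ range (n + 1), |(z (i, k) : ℚ) * (D : ℚ) ^ k|
          ≤ ∑ i ∈ range (m + 1), ∑ k ∈ range (n + 1),
            (|(cL L) (i, k)| * 2 ^ k) * (D : ℚ) ^ N :=
            Finset.sum_le_sum fun i _ => Finset.sum_le_sum fun k _ => h3 i k
        _ = (∑ i ∈ range (m + 1), ∑ k ∈ range (n + 1), (|(cL L) (i, k)| * 2 ^ k)) *
            (D : ℚ) ^ N := by
            rw [Finset.sum_mul]
            exact Finset.sum_congr rfl fun i _ => by rw [Finset.sum_mul]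
        _ ≤ 3 ^ N * (D : ℚ) ^ N := mul_le_mul_of_nonneg_right h1 (by positivity)
        _ = _ := by rw [mul_pow]
    exact_mod_cast h2
  · intro l hl
    have h1 := xL_lt L l (by rw [hlen]; exact hl)
    rw [hx] at h1
    exact_mod_cast h1
  · have h1 := xL_eq L
    rw [hlen, hx] at h1
    exact_mod_cast h1
  · intro l
    have h1 := congrFun (ev_cL L) l
    rw [hx, ev, Finsupp.linearCombination_apply,
      Finsupp.sum_of_support_subset _ hsupp _ (by simp), Finset.sum_apply,
      Finset.sum_product] at h1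
    have h2 : ((∑ i ∈ range (m + 1), ∑ k ∈ range (n + 1),
        z (i, k) * (D : ℤ) ^ k * (l.choose k : ℤ) * (i : ℤ) ^ (l - k) : ℤ) : ℚ) =
        (D : ℚ) ^ N * x l := by
      rw [← h1, Finset.mul_sum]
      push_cast
      refine Finset.sum_congr rfl fun i _ => ?_
      rw [Finset.mul_sum]
      refine Finset.sum_congr rfl fun k _ => ?_
      have := hz (i, k)
      simp only at this
      rw [← this]
      simp only [Pi.smul_apply, smul_eq_mul, ee]
      ring
    exact_mod_cast h2

end Pool.Agent.Lib.PadicLindemann
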