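import Pool.Agent.Lib.PadicLindemann.Main

/-!
# The p-adic theorem of Hermite and Lindemann for the logarithm

The logarithm is the limit of `(u ^ (p ^ n) - 1) / p ^ n`, or the sum of the logarithmic series.
-/

set_option autoImplicit false
set_option linter.unusedSectionVars false

namespace Pool.Agent.Lib.PadicLindemann

open Finset Filter Topology

variable {K : Type*} [NormedField K] [IsUltrametricDist K] {p : ℕ} [hpr : Fact p.Prime]

theorem norm_inv_factorial' (hp : ‖(p : K)‖ = (p : ℝ)⁻¹) (k : ℕ) :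
    ‖(((k + 1).factorial : ℕ) : K)‖⁻¹ ≤ (p : ℝ) ^ k := by
  have hp1 : (1 : ℝ) ≤ p := by exact_mod_cast hpr.out.one_lt.le
  rw [norm_nat hp _ (Nat.factorial_ne_zero _), inv_inv]
  apply pow_le_pow_right₀ hp1
  have h1 := sub_one_mul_padicValNat_factorial (p := p) (k + 1)
  rw [Nat.factorization_def _ hpr.out]
  have h2 : padicValNat p (k + 1).factorial ≤ (p - 1) * padicValNat p (k + 1).factorial := by
    have : 1 ≤ p - 1 := by
      have := hpr.out.two_le
      omega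
    calc padicValNat p (k + 1).factorial = 1 * padicValNat p (k + 1).factorial := (one_mul _).symm
      _ ≤ _ := Nat.mul_le_mul_right _ this
  have h3 : 1 ≤ (p.digits (k + 1)).sum := by
    by_contra hcon
    have h4 : (p.digits (k + 1)).sum = 0 := by omega
    have h5 : ∀ d ∈ p.digits (k + 1), d = 0 := by
      intro d hd
      have := List.single_le_sum (by simp) d hd
      omega
    have h6 : p.digits (k + 1) ≠ [] := Nat.digits_ne_nil_iff_ne_zero.2 (by omega)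
    exact Nat.getLast_digit_ne_zero p (by omega : k + 1 ≠ 0) (h5 _ (List.getLast_mem h6))
  omega

theorem norm_term_le' (hp : ‖(p : K)‖ = (p : ℝ)⁻¹) (x : K) (n : ℕ) :
    ‖x ^ (n + 1) / (((n + 1).factorial : ℕ) : K)‖ ≤ ‖x‖ * (‖x‖ * p) ^ n := by
  rw [div_eq_mul_inv, norm_mul, norm_pow, norm_inv, mul_pow, pow_succ]
  calc ‖x‖ ^ n * ‖x‖ * ‖(((n + 1).factorial : ℕ) : K)‖⁻¹ ≤ ‖x‖ ^ n * ‖x‖ * (p : ℝ) ^ n :=
        mul_le_mul_of_nonneg_left (norm_inv_factorial' hp n) (by positivity)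
    _ = _ := by ring

theorem norm_pexp_sub (hp : ‖(p : K)‖ = (p : ℝ)⁻¹) [CompleteSpace K] [CharZero K] (x : K)
    (hx : ‖x‖ * p < 1) : ‖pexp x - 1 - x‖ ≤ ‖x‖ * (‖x‖ * p) := by
  have hs : Summable fun n : ℕ => x ^ n / ((n.factorial : ℕ) : K) :=
    Summable.of_norm (summable_norm_term hp x hx)
  have h1 : pexp x - 1 - x = ∑' n : ℕ, x ^ (n + 2) / (((n + 2).factorial : ℕ) : K) := by
    rw [pexp, ← hs.sum_add_tsum_nat_add 2]
    simp only [Finset.sum_range_succ, Finset.sum_range_zero, zero_add, pow_zero,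
      Nat.factorial_zero, Nat.cast_one, div_one, pow_one, Nat.factorial_one]
    ring
  rw [h1]
  refine (IsUltrametricDist.norm_tsum_le _).trans (ciSup_le fun i => ?_)
  refine (norm_term_le' hp x (i + 1)).trans ?_
  apply mul_le_mul_of_nonneg_left _ (norm_nonneg _)
  rw [pow_succ]
  calc (‖x‖ * p) ^ i * (‖x‖ * p) ≤ 1 * (‖x‖ * p) :=
        mul_le_mul_of_nonneg_right (pow_le_one₀ (by positivity) hx.le) (by positivity)
    _ = _ := one_mul _

theorem norm_pexp_sub_one_lt (hp : ‖(p : K)‖ = (p : ℝ)⁻¹) [CompleteSpace K] [CharZero K] (x : K)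
    (hx : ‖x‖ * p < 1) : ‖pexp x - 1‖ ≤ ‖x‖ := by
  have h1 := norm_pexp_sub hp x hx
  have h2 : pexp x - 1 = (pexp x - 1 - x) + x := by ring
  rw [h2]
  refine (IsUltrametricDist.norm_add_le_max _ _).trans (max_le ?_ le_rfl)
  refine h1.trans ?_
  calc ‖x‖ * (‖x‖ * p) ≤ ‖x‖ * 1 := mul_le_mul_of_nonneg_left hx.le (norm_nonneg _)
    _ = _ := mul_one _

theorem norm_one_of_close {w : K} (hw : ‖w - 1‖ < 1) : ‖w‖ = 1 := by
  have h1 : w = (w - 1) + 1 := by ring
  have h2 : ‖w - 1‖ ≠ ‖(1 : K)‖ := by rw [norm_one]; exact hw.ne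
  rw [h1, IsUltrametricDist.norm_add_eq_max_of_norm_ne_norm h2, norm_one, max_eq_right hw.le]

theorem norm_pow_sub_one_le {w : K} (hw : ‖w - 1‖ < 1) (i : ℕ) : ‖w ^ i - 1‖ ≤ ‖w - 1‖ := by
  induction i with
  | zero => simp
  | succ i ih =>
    have h1 : w ^ (i + 1) - 1 = w * (w ^ i - 1) + (w - 1) := by ring
    rw [h1]
    refine (IsUltrametricDist.norm_add_le_max _ _).trans (max_le ?_ le_rfl)
    rw [norm_mul, norm_one_of_close hw, one_mul]
    exact ih

omit hpr in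
theorem lt_one_of_mul (hp1 : 1 < (p : ℝ)) {r : ℝ} (h : r * p < 1) : r < 1 := by
  nlinarith

theorem norm_pow_prime_sub_one (hp : ‖(p : K)‖ = (p : ℝ)⁻¹) {w : K} (hw : ‖w - 1‖ * p < 1) :
    ‖w ^ p - 1‖ = ‖w - 1‖ * (p : ℝ)⁻¹ := by
  have hp1 : (1 : ℝ) < p := by exact_mod_cast hpr.out.one_lt
  have hppos : (0 : ℝ) < p := by linarith
  have hw1 : ‖w - 1‖ < 1 := lt_one_of_mul hp1 hw
  have hw2 : ‖w - 1‖ < (p : ℝ)⁻¹ := by
    rw [← one_div, lt_div_iff₀ hppos]
    exact hw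
  have h1 : w ^ p - 1 = (w - 1) * (∑ i ∈ range p, (w ^ i - 1) + p) := by
    have h2 := mul_geom_sum w p
    rw [← h2]
    congr 1
    rw [Finset.sum_sub_distrib]
    simp
  have h3 : ‖∑ i ∈ range p, (w ^ i - 1)‖ ≤ ‖w - 1‖ := by
    apply IsUltrametricDist.norm_sum_le_of_forall_le_of_nonneg (norm_nonneg _)
    intro i _
    exact norm_pow_sub_one_le hw1 i
  have h4 : ‖∑ i ∈ range p, (w ^ i - 1)‖ < ‖(p : K)‖ := by
    rw [hp]
    exact h3.trans_lt hw2
  rw [h1, norm_mul, IsUltrametricDist.norm_add_eq_max_of_norm_ne_norm h4.ne, max_eq_right h4.le, hp]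

theorem norm_pow_pow_sub_one (hp : ‖(p : K)‖ = (p : ℝ)⁻¹) {w : K} (hw : ‖w - 1‖ * p < 1) (n : ℕ) :
    ‖w ^ p ^ n - 1‖ = ‖w - 1‖ * ((p : ℝ)⁻¹) ^ n := by
  have hp1 : (1 : ℝ) < p := by exact_mod_cast hpr.out.one_lt
  have hppos : (0 : ℝ) < p := by linarith
  induction n with
  | zero => simp
  | succ n ih =>
    have h1 : ‖w ^ p ^ n - 1‖ * p < 1 := by
      rw [ih]
      have h2 : ((p : ℝ)⁻¹) ^ n ≤ 1 := pow_le_one₀ (by positivity) (inv_le_one_of_one_le₀ hp1.le)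
      calc ‖w - 1‖ * (p : ℝ)⁻¹ ^ n * p = (‖w - 1‖ * p) * (p : ℝ)⁻¹ ^ n := by ring
        _ ≤ (‖w - 1‖ * p) * 1 := mul_le_mul_of_nonneg_left h2 (by positivity)
        _ < 1 := by rwa [mul_one]
    rw [pow_succ, pow_mul, norm_pow_prime_sub_one hp h1, ih, pow_succ]
    ring

/-- The `p`-adic theorem of Hermite and Lindemann for the logarithm (as a limit): if `u` is
algebraic and its logarithm is algebraic, then `u = 1`. -/
theorem eq_one_of_tendsto [CompleteSpace K] [CharZero K] (hp : ‖(p : K)‖ = (p : ℝ)⁻¹) (u a : K)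
    (hu : ‖u - 1‖ * p < 1) (hua : IsAlgebraic ℚ u) (haa : IsAlgebraic ℚ a)
    (hlim : Tendsto (fun n : ℕ => (u ^ p ^ n - 1) / (p : K) ^ n) atTop (𝓝 a)) : u = 1 := by
  have hp1 : (1 : ℝ) < p := by exact_mod_cast hpr.out.one_lt
  have hppos : (0 : ℝ) < p := by linarith
  have hp0 : (p : K) ≠ 0 := by
    have := hpr.out.ne_zero
    exact_mod_cast this
  -- the norm of `a`
  have hna : ‖a‖ = ‖u - 1‖ := by
    have h1 : Tendsto (fun n : ℕ => ‖(u ^ p ^ n - 1) / (p : K) ^ n‖) atTop (𝓝 ‖a‖) := hlim.norm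
    have h2 : ∀ n : ℕ, ‖(u ^ p ^ n - 1) / (p : K) ^ n‖ = ‖u - 1‖ := by
      intro n
      rw [norm_div, norm_pow_pow_sub_one hp hu, norm_pow, hp]
      have : ((p : ℝ)⁻¹) ^ n ≠ 0 := by positivity
      field_simp
    simp only [h2] at h1
    exact tendsto_nhds_unique h1 tendsto_const_nhds
  have ha : ‖a‖ * p < 1 := by rw [hna]; exact hu
  set e := pexp a with he
  have he1 : ‖e - 1‖ * p < 1 := by
    calc ‖e - 1‖ * p ≤ ‖a‖ * p :=
          mul_le_mul_of_nonneg_right (norm_pexp_sub_one_lt hp a ha) hppos.le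
      _ < 1 := ha
  have hen : ‖e‖ = 1 := norm_one_of_close (lt_one_of_mul hp1 he1)
  have he0 : e ≠ 0 := by
    intro h
    rw [h, norm_zero] at hen
    exact zero_ne_one hen
  -- the limit for `e`
  have hlim2 : Tendsto (fun n : ℕ => (e ^ p ^ n - 1) / (p : K) ^ n) atTop (𝓝 a) := by
    rw [tendsto_iff_norm_sub_tendsto_zero]
    have h1 : ∀ n : ℕ, ‖(e ^ p ^ n - 1) / (p : K) ^ n - a‖ ≤
        (‖a‖ * (‖a‖ * p)) * ((p : ℝ)⁻¹) ^ n := by
      intro n
      have h2 : e ^ p ^ n = pexp ((p : K) ^ n * a) := by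
        rw [he, ← pexp_nat_mul hp a ha]
        push_cast
        rfl
      have h3 : (e ^ p ^ n - 1) / (p : K) ^ n - a =
          (pexp ((p : K) ^ n * a) - 1 - (p : K) ^ n * a) / (p : K) ^ n := by
        rw [h2]
        have : (p : K) ^ n ≠ 0 := pow_ne_zero _ hp0
        field_simp
      have hpn : ((p : ℝ)⁻¹) ^ n ≤ 1 := pow_le_one₀ (by positivity) (inv_le_one_of_one_le₀ hp1.le)
      have h4 : ‖(p : K) ^ n * a‖ = ((p : ℝ)⁻¹) ^ n * ‖a‖ := by rw [norm_mul, norm_pow, hp]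
      have h5 : ‖(p : K) ^ n * a‖ * p < 1 := by
        rw [h4]
        calc (p : ℝ)⁻¹ ^ n * ‖a‖ * p = (p : ℝ)⁻¹ ^ n * (‖a‖ * p) := by ring
          _ ≤ 1 * (‖a‖ * p) := mul_le_mul_of_nonneg_right hpn (by positivity)
          _ < 1 := by rwa [one_mul]
      have h6 := norm_pexp_sub hp _ h5
      rw [h3, norm_div, norm_pow, hp]
      rw [h4] at h6
      have h7 : (0 : ℝ) < ((p : ℝ)⁻¹) ^ n := by positivity
      rw [div_le_iff₀ h7]
      refine h6.trans (le_of_eq ?_)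
      ring
    have h8 : Tendsto (fun n : ℕ => (‖a‖ * (‖a‖ * p)) * ((p : ℝ)⁻¹) ^ n) atTop (𝓝 0) := by
      have := (tendsto_pow_atTop_nhds_zero_of_lt_one (r := (p : ℝ)⁻¹) (by positivity)
        (inv_lt_one_of_one_lt₀ hp1)).const_mul (‖a‖ * (‖a‖ * p))
      rwa [mul_zero] at this
    exact squeeze_zero (fun _ => norm_nonneg _) h1 h8
  -- the quotient
  set w := u / e with hw
  have hw1 : ‖w - 1‖ * p < 1 := by
    have h1 : w - 1 = (u - e) / e := by
      rw [hw]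
      field_simp
    have h2 : u - e = (u - 1) - (e - 1) := by ring
    rw [h1, norm_div, hen, div_one, h2]
    have h3 : ‖(u - 1) - (e - 1)‖ ≤ max ‖u - 1‖ ‖e - 1‖ := by
      rw [sub_eq_add_neg (u - 1) (e - 1)]
      have := IsUltrametricDist.norm_add_le_max (u - 1) (-(e - 1))
      rwa [norm_neg] at this
    rcases le_total ‖u - 1‖ ‖e - 1‖ with h | h
    · rw [max_eq_right h] at h3
      exact (mul_le_mul_of_nonneg_right h3 hppos.le).trans_lt he1
    · rw [max_eq_left h] at h3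
      exact (mul_le_mul_of_nonneg_right h3 hppos.le).trans_lt hu
  have h1 : ∀ n : ℕ, ‖(u ^ p ^ n - 1) / (p : K) ^ n - (e ^ p ^ n - 1) / (p : K) ^ n‖ = ‖w - 1‖ := by
    intro n
    have h2 : (u ^ p ^ n - 1) / (p : K) ^ n - (e ^ p ^ n - 1) / (p : K) ^ n =
        (w ^ p ^ n - 1) * e ^ p ^ n / (p : K) ^ n := by
      rw [hw, div_pow, ← sub_div]
      congr 1
      have : e ^ p ^ n ≠ 0 := pow_ne_zero _ he0
      field_simp
      ring
    rw [h2, norm_div, norm_mul, norm_pow_pow_sub_one hp hw1, norm_pow, hen, one_pow, mul_one,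
      norm_pow, hp]
    have : ((p : ℝ)⁻¹) ^ n ≠ 0 := by positivity
    field_simp
  have h2 : Tendsto (fun n : ℕ => ‖(u ^ p ^ n - 1) / (p : K) ^ n - (e ^ p ^ n - 1) / (p : K) ^ n‖)
      atTop (𝓝 0) := by
    have := (hlim.sub hlim2).norm
    rwa [sub_self, norm_zero] at this
  simp only [h1] at h2
  have h3 : ‖w - 1‖ = 0 := tendsto_nhds_unique tendsto_const_nhds h2
  have h4 : w = 1 := sub_eq_zero.1 (norm_eq_zero.1 h3)
  have h5 : u = e := by
    rw [hw, div_eq_one_iff_eq he0] at h4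
    exact h4
  have h6 : a = 0 := by
    apply eq_zero_of_isAlgebraic_pexp hp a ha haa
    rw [← he, ← h5]
    exact hua
  rw [h5, he, h6, pexp_zero]

end Pool.Agent.Lib.PadicLindemann
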