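import Pool.Agent.Lib.PadicLindemann.Analytic

/-!
# The p-adic theorem of Hermite and Lindemann (Mahler)

`K` is a complete ultrametric field of characteristic zero with `‖p‖ = 1/p`. If `a ∈ K` with
`‖a‖ p < 1` is algebraic and `exp a` is algebraic, then `a = 0`.
-/

set_option autoImplicit false
set_option linter.unusedSectionVars false

namespace Pool.Agent.Lib.PadicLindemann

open Finset Module NumberField

section liouville

variable {K : Type*} [NormedField K] [IsUltrametricDist K] {p : ℕ} [hpr : Fact p.Prime]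

theorem norm_le_one_of_integral {y : K} (hy : IsIntegral ℤ y) : ‖y‖ ≤ 1 := by
  let v := NormedField.valuation (K := K)
  have h1 : IsIntegral v.integer y := hy.tower_top
  have h2 := (Valuation.integer.integers v).mem_of_integral h1
  have h3 : v y ≤ 1 := h2
  exact h3

theorem norm_nat_ge (hp : ‖(p : K)‖ = (p : ℝ)⁻¹) (n : ℕ) (hn : n ≠ 0) :
    (n : ℝ)⁻¹ ≤ ‖(n : K)‖ := by
  rw [norm_nat hp n hn]
  have h1 : p ^ n.factorization p ≤ n := Nat.ordProj_le p hn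
  have h2 : ((p : ℝ) ^ n.factorization p) ≤ n := by exact_mod_cast h1
  have h3 : (0 : ℝ) < (p : ℝ) ^ n.factorization p := by
    have : (0 : ℝ) < p := by exact_mod_cast hpr.out.pos
    positivity
  exact inv_anti₀ h3 h2

theorem liouville {E : Type*} [Field E] [NumberField E] (φ : E →+* K)
    (hp : ‖(p : K)‖ = (p : ℝ)⁻¹) (x : 𝓞 E) (hx : x ≠ 0) (B : ℝ)
    (hB : ∀ σ : E →+* ℂ, ‖σ x‖ ≤ B) : (B ^ finrank ℚ E)⁻¹ ≤ ‖φ x‖ := by
  set M := (Algebra.norm ℤ x).natAbs with hM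
  have hM0 : M ≠ 0 := by
    rw [hM, Int.natAbs_ne_zero]
    exact Algebra.norm_ne_zero_iff.2 hx
  have h1 : ((M : ℕ) : 𝓞 E) ∈ Ideal.span {x} := by
    have := Ideal.absNorm_mem (Ideal.span {x})
    rwa [Ideal.absNorm_span_singleton] at this
  obtain ⟨y, hy⟩ := Ideal.mem_span_singleton.1 h1
  have h2 : (M : ℝ) ≤ B ^ finrank ℚ E := by
    have h3 : (M : ℝ) = ‖algebraMap ℚ ℂ (Algebra.norm ℚ (x : E))‖ := by
      rw [← Algebra.coe_norm_int, hM]
      have : ((Algebra.norm ℤ x).natAbs : ℝ) = |((Algebra.norm ℤ x : ℤ) : ℝ)| := by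
        rw [← Int.cast_abs, ← Int.natCast_natAbs]
        rfl
      rw [this]
      simp
    rw [h3, Algebra.norm_eq_prod_embeddings, norm_prod]
    calc ∏ σ : E →ₐ[ℚ] ℂ, ‖σ (x : E)‖ ≤ ∏ _σ : E →ₐ[ℚ] ℂ, B := by
          apply Finset.prod_le_prod (fun _ _ => norm_nonneg _)
          intro σ _
          exact hB (σ : E →+* ℂ)
      _ = B ^ finrank ℚ E := by
          rw [Finset.prod_const, Finset.card_univ, AlgHom.card]
  have h3 : ‖φ (y : E)‖ ≤ 1 := by
    apply norm_le_one_of_integral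
    have h4 : IsIntegral ℤ (y : E) := y.2
    exact map_isIntegral_int φ h4
  have h5 : (M : K) = φ x * φ y := by
    have h6 : ((M : ℕ) : E) = (x : E) * (y : E) := by exact_mod_cast congrArg (fun t : 𝓞 E => (t : E)) hy
    rw [← map_mul, ← h6, map_natCast]
  have h6 := norm_nat_ge hp M hM0
  rw [h5, norm_mul] at h6
  have hMpos : (0 : ℝ) < M := by exact_mod_cast Nat.pos_of_ne_zero hM0
  calc (B ^ finrank ℚ E)⁻¹ ≤ (M : ℝ)⁻¹ := inv_anti₀ hMpos h2
    _ ≤ ‖φ x‖ * ‖φ y‖ := h6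
    _ ≤ ‖φ x‖ * 1 := mul_le_mul_of_nonneg_left h3 (norm_nonneg _)
    _ = _ := mul_one _

end liouville

section main

variable {K : Type*} [NormedField K] [IsUltrametricDist K] {p : ℕ} [hpr : Fact p.Prime]
  [CompleteSpace K] [CharZero K]

/-- the algebraic number -/
noncomputable def XX {R : Type*} [CommRing R] (m n q b : ℕ) (Z : ℕ → ℕ → ℤ) (a1 u1 : R) : R :=
  ∑ i ∈ range (m + 1), ∑ k ∈ range (n + 1),
    (Z i k : R) * (n.descFactorial (n - k) : R) * (q : R) ^ k * ((b : R) ^ (n - k) * a1 ^ k) *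
      ((b : R) ^ (q * (m - i)) * u1 ^ (q * i))

theorem map_XX {R S : Type*} [CommRing R] [CommRing S] (f : R →+* S) (m n q b : ℕ)
    (Z : ℕ → ℕ → ℤ) (a1 u1 : R) : f (XX m n q b Z a1 u1) = XX m n q b Z (f a1) (f u1) := by
  simp only [XX, map_sum, map_mul, map_pow, map_intCast, map_natCast]

theorem norm_XX_le (m n κ b : ℕ) (Z : ℕ → ℕ → ℤ) (a1 u1 : ℂ) (A W : ℝ) (hA1 : 1 ≤ A)
    (hκ : 1 ≤ κ)
    (hb : (b : ℝ) ≤ A) (ha : ‖a1‖ ≤ A) (hu : ‖u1‖ ≤ A)
    (hZ : ((∑ i ∈ range (m + 1), ∑ k ∈ range (n + 1), |Z i k| : ℤ) : ℝ) ≤ W) :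
    ‖XX m n (κ * n) b Z a1 u1‖ ≤ W * ((n : ℝ) ^ n * (κ : ℝ) ^ n * A ^ n * A ^ (κ * n * m)) := by
  unfold XX
  have hκ' : (1 : ℝ) ≤ κ := by exact_mod_cast hκ
  have key : ∀ i ∈ range (m + 1), ∀ k ∈ range (n + 1),
      ‖(Z i k : ℂ) * (n.descFactorial (n - k) : ℂ) * ((κ * n : ℕ) : ℂ) ^ k *
        ((b : ℂ) ^ (n - k) * a1 ^ k) * ((b : ℂ) ^ (κ * n * (m - i)) * u1 ^ (κ * n * i))‖ ≤
      |(Z i k : ℝ)| * ((n : ℝ) ^ n * (κ : ℝ) ^ n * A ^ n * A ^ (κ * n * m)) := by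
    intro i hi k hk
    have hi' : i ≤ m := Nat.lt_succ_iff.1 (Finset.mem_range.1 hi)
    have hk' : k ≤ n := Nat.lt_succ_iff.1 (Finset.mem_range.1 hk)
    simp only [norm_mul, norm_pow, Complex.norm_natCast, Complex.norm_intCast]
    have h1 : (n.descFactorial (n - k) : ℝ) * ((κ * n : ℕ) : ℝ) ^ k ≤ (n : ℝ) ^ n * (κ : ℝ) ^ n := by
      have h2 : (n.descFactorial (n - k) : ℝ) ≤ (n : ℝ) ^ (n - k) := by
        exact_mod_cast Nat.descFactorial_le_pow n (n - k)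
      calc (n.descFactorial (n - k) : ℝ) * ((κ * n : ℕ) : ℝ) ^ k
          ≤ (n : ℝ) ^ (n - k) * ((κ * n : ℕ) : ℝ) ^ k :=
            mul_le_mul_of_nonneg_right h2 (by positivity)
        _ = ((n : ℝ) ^ (n - k) * (n : ℝ) ^ k) * (κ : ℝ) ^ k := by
            push_cast
            rw [mul_pow]
            ring
        _ = (n : ℝ) ^ n * (κ : ℝ) ^ k := by
            rw [← pow_add, Nat.sub_add_cancel hk']
        _ ≤ (n : ℝ) ^ n * (κ : ℝ) ^ n := by
            apply mul_le_mul_of_nonneg_left _ (by positivity)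
            exact pow_le_pow_right₀ hκ' hk'
    have h3 : (b : ℝ) ^ (n - k) * ‖a1‖ ^ k ≤ A ^ n := by
      calc (b : ℝ) ^ (n - k) * ‖a1‖ ^ k ≤ A ^ (n - k) * A ^ k :=
            mul_le_mul (pow_le_pow_left₀ (by positivity) hb _)
              (pow_le_pow_left₀ (norm_nonneg _) ha _) (by positivity) (by positivity)
        _ = A ^ n := by rw [← pow_add, Nat.sub_add_cancel hk']
    have h4 : (b : ℝ) ^ (κ * n * (m - i)) * ‖u1‖ ^ (κ * n * i) ≤ A ^ (κ * n * m) := by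
      calc (b : ℝ) ^ (κ * n * (m - i)) * ‖u1‖ ^ (κ * n * i)
          ≤ A ^ (κ * n * (m - i)) * A ^ (κ * n * i) :=
            mul_le_mul (pow_le_pow_left₀ (by positivity) hb _)
              (pow_le_pow_left₀ (norm_nonneg _) hu _) (by positivity) (by positivity)
        _ = A ^ (κ * n * m) := by rw [← pow_add, ← mul_add, Nat.sub_add_cancel hi']
    calc |(Z i k : ℝ)| * (n.descFactorial (n - k) : ℝ) * ((κ * n : ℕ) : ℝ) ^ k *
          ((b : ℝ) ^ (n - k) * ‖a1‖ ^ k) * ((b : ℝ) ^ (κ * n * (m - i)) * ‖u1‖ ^ (κ * n * i))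
        = |(Z i k : ℝ)| * (((n.descFactorial (n - k) : ℝ) * ((κ * n : ℕ) : ℝ) ^ k) *
          ((b : ℝ) ^ (n - k) * ‖a1‖ ^ k) *
            ((b : ℝ) ^ (κ * n * (m - i)) * ‖u1‖ ^ (κ * n * i))) := by ring
      _ ≤ |(Z i k : ℝ)| * (((n : ℝ) ^ n * (κ : ℝ) ^ n) * A ^ n * A ^ (κ * n * m)) := by
          apply mul_le_mul_of_nonneg_left _ (abs_nonneg _)
          exact mul_le_mul (mul_le_mul h1 h3 (by positivity) (by positivity)) h4
            (by positivity) (by positivity)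
  refine (norm_sum_le _ _).trans ?_
  calc ∑ i ∈ range (m + 1), ‖∑ k ∈ range (n + 1),
        (Z i k : ℂ) * (n.descFactorial (n - k) : ℂ) * ((κ * n : ℕ) : ℂ) ^ k *
        ((b : ℂ) ^ (n - k) * a1 ^ k) * ((b : ℂ) ^ (κ * n * (m - i)) * u1 ^ (κ * n * i))‖
      ≤ ∑ i ∈ range (m + 1), ∑ k ∈ range (n + 1),
        |(Z i k : ℝ)| * ((n : ℝ) ^ n * (κ : ℝ) ^ n * A ^ n * A ^ (κ * n * m)) := by
        apply Finset.sum_le_sum
        intro i hi
        refine (norm_sum_le _ _).trans ?_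
        exact Finset.sum_le_sum (key i hi)
    _ = ((∑ i ∈ range (m + 1), ∑ k ∈ range (n + 1), |Z i k| : ℤ) : ℝ) *
        ((n : ℝ) ^ n * (κ : ℝ) ^ n * A ^ n * A ^ (κ * n * m)) := by
        push_cast
        rw [Finset.sum_mul]
        exact Finset.sum_congr rfl fun i _ => by rw [Finset.sum_mul]
    _ ≤ _ := mul_le_mul_of_nonneg_right hZ (by positivity)

theorem exists_denominator {E : Type*} [Field E] [NumberField E] (x y : E) :
    ∃ b : ℕ, b ≠ 0 ∧ ∃ x1 y1 : 𝓞 E, ((x1 : 𝓞 E) : E) = b * x ∧ ((y1 : 𝓞 E) : E) = b * y := by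
  have halg : ∀ t : E, ∃ c : ℤ, c ≠ 0 ∧ IsIntegral ℤ (c • t) := by
    intro t
    have h1 : IsAlgebraic ℤ t :=
      (IsFractionRing.isAlgebraic_iff ℤ ℚ E).2 (Algebra.IsAlgebraic.isAlgebraic t)
    obtain ⟨c, hc, hct⟩ := h1.exists_integral_multiple
    exact ⟨c, hc, hct⟩
  obtain ⟨c, hc, hcx⟩ := halg x
  obtain ⟨e, he, hey⟩ := halg y
  have hb : (((c * e).natAbs : ℕ) : E) = ((c * e).sign : E) * ((c * e : ℤ) : E) := by
    have h1 : (((c * e).natAbs : ℤ)) = (c * e).sign * (c * e) := by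
      rw [Int.natCast_natAbs, Int.sign_mul_self_eq_abs]
    rw [← Int.cast_natCast, h1, Int.cast_mul]
  refine ⟨(c * e).natAbs, ?_, ⟨(((c * e).natAbs : ℕ) : E) * x, ?_⟩,
    ⟨(((c * e).natAbs : ℕ) : E) * y, ?_⟩, rfl, rfl⟩
  · rw [Int.natAbs_ne_zero]
    exact mul_ne_zero hc he
  · have h2 : (((c * e).natAbs : ℕ) : E) * x = (((c * e).sign * e : ℤ) : E) * (c • x) := by
      rw [hb, zsmul_eq_mul]
      push_cast
      ring
    change IsIntegral ℤ _
    rw [h2]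
    exact (isIntegral_algebraMap (R := ℤ) (A := E) (x := (c * e).sign * e)).mul hcx
  · have h2 : (((c * e).natAbs : ℕ) : E) * y = (((c * e).sign * c : ℤ) : E) * (e • y) := by
      rw [hb, zsmul_eq_mul]
      push_cast
      ring
    change IsIntegral ℤ _
    rw [h2]
    exact (isIntegral_algebraMap (R := ℤ) (A := E) (x := (c * e).sign * c)).mul hey

theorem exists_size {E : Type*} [Field E] [NumberField E] (b : ℕ) (x y : E) :
    ∃ A : ℝ, 1 ≤ A ∧ (b : ℝ) ≤ A ∧ (∀ σ : E →+* ℂ, ‖σ x‖ ≤ A) ∧ ∀ σ : E →+* ℂ, ‖σ y‖ ≤ A := by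
  have hs : ∀ σ : E →+* ℂ, ‖σ x‖ + ‖σ y‖ ≤ ∑ σ : E →+* ℂ, (‖σ x‖ + ‖σ y‖) := fun σ =>
    Finset.single_le_sum (f := fun σ : E →+* ℂ => ‖σ x‖ + ‖σ y‖) (fun _ _ => by positivity)
      (Finset.mem_univ σ)
  have h0 : (0 : ℝ) ≤ ∑ σ : E →+* ℂ, (‖σ x‖ + ‖σ y‖) :=
    Finset.sum_nonneg fun _ _ => by positivity
  refine ⟨1 + b + ∑ σ : E →+* ℂ, (‖σ x‖ + ‖σ y‖), ?_, ?_, ?_, ?_⟩
  · have : (0 : ℝ) ≤ b := Nat.cast_nonneg b
    linarith
  · linarith
  · intro σ
    have := hs σ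
    have h1 := norm_nonneg (σ y)
    have : (0 : ℝ) ≤ b := Nat.cast_nonneg b
    linarith
  · intro σ
    have := hs σ
    have h1 := norm_nonneg (σ x)
    have : (0 : ℝ) ≤ b := Nat.cast_nonneg b
    linarith

/-- the value of the algebraic number in `K` -/
theorem XX_value (hp : ‖(p : K)‖ = (p : ℝ)⁻¹) (a : K) (ha : ‖a‖ * p < 1) (m n q b : ℕ)
    (Z : ℕ → ℕ → ℤ) :
    XX m n q b Z ((b : K) * a) ((b : K) * pexp a) =
      ((n.factorial : ℕ) : K) * (b : K) ^ n * (b : K) ^ (q * m) *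
        ∑ i ∈ range (m + 1), ∑ k ∈ range (n + 1),
          (Z i k : K) * (((q : K) * a) ^ k / ((k.factorial : ℕ) : K) * pexp (i * ((q : K) * a))) := by
  unfold XX
  rw [Finset.mul_sum]
  refine Finset.sum_congr rfl fun i hi => ?_
  rw [Finset.mul_sum]
  refine Finset.sum_congr rfl fun k hk => ?_
  have hi' : i ≤ m := Nat.lt_succ_iff.1 (Finset.mem_range.1 hi)
  have hk' : k ≤ n := Nat.lt_succ_iff.1 (Finset.mem_range.1 hk)
  have h1 : pexp ((i : K) * ((q : K) * a)) = pexp a ^ (q * i) := by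
    rw [← pexp_nat_mul hp a ha]
    congr 1
    push_cast
    ring
  have h2 : ((n.factorial : ℕ) : K) = ((k.factorial : ℕ) : K) * (n.descFactorial (n - k) : K) := by
    have h3 := Nat.factorial_mul_descFactorial (Nat.sub_le n k)
    rw [Nat.sub_sub_self hk'] at h3
    exact_mod_cast congrArg (Nat.cast : ℕ → K) h3.symm
  have h3 : ((k.factorial : ℕ) : K) ≠ 0 := by exact_mod_cast Nat.factorial_ne_zero k
  have h4 : (b : K) ^ n = (b : K) ^ (n - k) * (b : K) ^ k := by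
    rw [← pow_add, Nat.sub_add_cancel hk']
  have h5 : (b : K) ^ (q * m) = (b : K) ^ (q * (m - i)) * (b : K) ^ (q * i) := by
    rw [← pow_add, ← mul_add, Nat.sub_add_cancel hi']
  rw [h1, h2, h4, h5, mul_pow, mul_pow, mul_pow, div_mul_eq_mul_div, mul_div_assoc', mul_div_assoc',
    eq_div_iff h3]
  ring

/-- The `p`-adic theorem of Hermite and Lindemann. -/
theorem eq_zero_of_isAlgebraic_pexp (hp : ‖(p : K)‖ = (p : ℝ)⁻¹) (a : K) (ha : ‖a‖ * p < 1)
    (h1 : IsAlgebraic ℚ a) (h2 : IsAlgebraic ℚ (pexp a)) : a = 0 := by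
  by_contra ha0
  set u := pexp a with hu
  set S : Set K := {a, u} with hS
  have hfin : FiniteDimensional ℚ (IntermediateField.adjoin ℚ S) := by
    apply IntermediateField.finiteDimensional_adjoin
    intro x hx
    rcases hx with rfl | rfl
    · exact h1.isIntegral
    · exact h2.isIntegral
  set E := IntermediateField.adjoin ℚ S with hE
  have hNF : NumberField E := ⟨⟩
  set φ : E →+* K := algebraMap E K with hφ
  let a' : E := ⟨a, IntermediateField.subset_adjoin _ _ (by simp [hS])⟩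
  let u' : E := ⟨u, IntermediateField.subset_adjoin _ _ (by simp [hS])⟩
  have ha' : φ a' = a := rfl
  have hu' : φ u' = u := rfl
  -- denominators
  obtain ⟨b, hb0, a1, u1, ha1, hu1⟩ := exists_denominator a' u'
  set d := finrank ℚ E with hd
  -- archimedean size
  obtain ⟨A, hA1, hAb, hAa, hAu⟩ := exists_size b (a1 : E) (u1 : E)
  have hp1 : (1 : ℝ) < p := by exact_mod_cast hpr.out.one_lt
  -- the scaling
  obtain ⟨k0, hk0⟩ : ∃ k0 : ℕ, 4 * (d + 1) ≤ p ^ k0 := by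
    refine ⟨4 * (d + 1), ?_⟩
    exact (Nat.lt_pow_self hpr.out.one_lt).le
  set κ := p ^ k0 with hκ
  have hκ1 : 1 ≤ κ := Nat.one_le_pow _ _ hpr.out.pos
  set F : ℝ := 3 * (d.factorial : ℝ) with hF
  have hF1 : 1 ≤ F := by
    have : (1 : ℝ) ≤ (d.factorial : ℝ) := by exact_mod_cast Nat.factorial_pos d
    linarith
  set C : ℝ := F ^ (2 * (d + 1)) * κ * A * A ^ (κ * d) with hC
  obtain ⟨s, hs⟩ : ∃ s : ℕ, C ^ d < (p : ℝ) ^ s := pow_unbounded_of_one_lt _ hp1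
  set n := p ^ s with hn
  have hn1 : 1 ≤ n := Nat.one_le_pow _ _ hpr.out.pos
  have hnpos : (0 : ℝ) < n := by exact_mod_cast hn1
  have hsn : C ^ d < (n : ℝ) := by
    rw [hn]
    push_cast
    exact hs
  obtain ⟨Z, x, hZ1, hx0, hx1, hZ⟩ := exists_coeffs d n
  set N := (d + 1) * n + d with hN
  set z : K := ((κ * n : ℕ) : K) * a with hz
  have hnorm : ‖z‖ = ‖a‖ / (κ * n) := by
    rw [hz, hκ, hn]
    push_cast
    have hp0 : (p : ℝ) ≠ 0 := by positivity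
    rw [norm_mul, norm_mul, norm_pow, norm_pow, hp, inv_pow, inv_pow]
    field_simp
  have hκr : (4 * (d + 1) : ℝ) ≤ κ := by exact_mod_cast hk0
  have hκpos : (0 : ℝ) < κ := by exact_mod_cast hκ1
  have hnr : (1 : ℝ) ≤ n := by exact_mod_cast hn1
  have hzp : ‖z‖ * p ≤ 1 / (κ * n) := by
    rw [hnorm, div_mul_eq_mul_div]
    exact div_le_div_of_nonneg_right ha.le (by positivity)
  have hz1 : ‖z‖ * p ≤ 1 / (2 * (((d + 1) * n + d : ℕ) + 1)) := by
    refine hzp.trans ?_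
    apply one_div_le_one_div_of_le (by positivity)
    push_cast
    have h3 : (4 * (d + 1) : ℝ) * n ≤ κ * n := mul_le_mul_of_nonneg_right hκr hnpos.le
    have h4 : (0 : ℝ) ≤ d := Nat.cast_nonneg d
    nlinarith
  have hz0 : z ≠ 0 := by
    rw [hz]
    apply mul_ne_zero _ ha0
    have : κ * n ≠ 0 := Nat.mul_ne_zero (by omega) (by omega)
    exact_mod_cast this
  have hform := form_norm hp d n z hz1 hz0 Z x hx0 hx1 hZ
  rw [← hN] at hform
  set X : 𝓞 E := XX d n (κ * n) b Z a1 u1 with hX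
  have hXE : ((X : 𝓞 E) : E) = XX d n (κ * n) b Z (a1 : E) (u1 : E) :=
    map_XX (algebraMap (𝓞 E) E) _ _ _ _ _ _ _
  have hφX : φ X = ((n.factorial : ℕ) : K) * (b : K) ^ n * (b : K) ^ (κ * n * d) *
        ∑ i ∈ range (d + 1), ∑ k ∈ range (n + 1),
          (Z i k : K) * (z ^ k / ((k.factorial : ℕ) : K) * pexp (i * z)) := by
    rw [hXE, map_XX, ha1, hu1, map_mul, map_mul, map_natCast, ha', hu', hu,
      XX_value hp a ha]
  have hlow : 0 < ‖∑ i ∈ range (d + 1), ∑ k ∈ range (n + 1),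
          (Z i k : K) * (z ^ k / ((k.factorial : ℕ) : K) * pexp (i * z))‖ := by
    rw [hform]
    have h3 : ((d.factorial : ℕ) : K) ≠ 0 := by exact_mod_cast Nat.factorial_ne_zero d
    have h4 : ((N.factorial : ℕ) : K) ≠ 0 := by exact_mod_cast Nat.factorial_ne_zero N
    have h5 : 0 < ‖((d.factorial : ℕ) : K)‖ := norm_pos_iff.2 h3
    have h6 : 0 < ‖z ^ N / ((N.factorial : ℕ) : K)‖ :=
      norm_pos_iff.2 (div_ne_zero (pow_ne_zero _ hz0) h4)
    positivity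
  have hX0 : X ≠ 0 := by
    intro h
    have h3 : φ X = 0 := by rw [h]; simp
    rw [hφX] at h3
    have h4 : ((n.factorial : ℕ) : K) ≠ 0 := by exact_mod_cast Nat.factorial_ne_zero n
    have h5 : (b : K) ≠ 0 := by exact_mod_cast hb0
    have h6 := norm_pos_iff.1 hlow
    exact mul_ne_zero (mul_ne_zero (mul_ne_zero h4 (pow_ne_zero _ h5)) (pow_ne_zero _ h5)) h6 h3
  have hup : ‖φ X‖ ≤ (1 / (n : ℝ)) ^ N := by
    rw [hφX, norm_mul, norm_mul, norm_mul, norm_pow, norm_pow, hform]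
    have e1 : ‖((n.factorial : ℕ) : K)‖ ≤ 1 := norm_nat_le _
    have e2 : ‖(b : K)‖ ^ n ≤ 1 := pow_le_one₀ (norm_nonneg _) (norm_nat_le _)
    have e3 : ‖(b : K)‖ ^ (κ * n * d) ≤ 1 := pow_le_one₀ (norm_nonneg _) (norm_nat_le _)
    have e4 : ‖((d.factorial : ℕ) : K)‖ ^ N ≤ 1 := pow_le_one₀ (norm_nonneg _) (norm_nat_le _)
    have e5 : ‖z ^ N / ((N.factorial : ℕ) : K)‖ ≤ (1 / (n : ℝ)) ^ N := by
      refine (norm_term_le hp z N).trans ?_
      apply pow_le_pow_left₀ (by positivity)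
      refine hzp.trans ?_
      apply one_div_le_one_div_of_le hnpos
      have h5 : (1 : ℝ) ≤ κ := by exact_mod_cast hκ1
      nlinarith
    have e6 : ‖((n.factorial : ℕ) : K)‖ * ‖(b : K)‖ ^ n * ‖(b : K)‖ ^ (κ * n * d) ≤ 1 :=
      mul_le_one₀ (mul_le_one₀ e1 (by positivity) e2) (by positivity) e3
    have e7 : ‖((d.factorial : ℕ) : K)‖ ^ N * ‖z ^ N / ((N.factorial : ℕ) : K)‖ ≤
        (1 / (n : ℝ)) ^ N := by
      calc _ ≤ 1 * ‖z ^ N / ((N.factorial : ℕ) : K)‖ :=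
            mul_le_mul_of_nonneg_right e4 (norm_nonneg _)
        _ ≤ _ := by rw [one_mul]; exact e5
    calc _ ≤ 1 * (‖((d.factorial : ℕ) : K)‖ ^ N * ‖z ^ N / ((N.factorial : ℕ) : K)‖) :=
          mul_le_mul_of_nonneg_right e6 (by positivity)
      _ ≤ _ := by rw [one_mul]; exact e7
  -- archimedean bound
  set B : ℝ := F ^ N * ((n : ℝ) ^ n * (κ : ℝ) ^ n * A ^ n * A ^ (κ * n * d)) with hB
  have hBX : ∀ σ : E →+* ℂ, ‖σ X‖ ≤ B := by
    intro σ
    rw [hXE, map_XX]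
    apply norm_XX_le d n κ b Z _ _ A (F ^ N) hA1 hκ1 hAb (hAa σ) (hAu σ)
    have h3 : (((∑ i ∈ range (d + 1), ∑ k ∈ range (n + 1), |Z i k| : ℤ)) : ℝ) ≤
        (((3 * (d.factorial : ℤ)) ^ N : ℤ) : ℝ) := by exact_mod_cast hZ1
    refine h3.trans_eq ?_
    rw [hF]
    push_cast
    rfl
  have hL := liouville φ hp X hX0 B hBX
  rw [← hd] at hL
  have hfinal := hL.trans hup
  -- comparison
  have hApos : 0 < A := by linarith
  have hFpos : 0 < F := by linarith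
  have hBpos : 0 < B := by positivity
  have h3 : (n : ℝ) ^ N ≤ B ^ d := by
    have h4 : (1 / (n : ℝ)) ^ N = ((n : ℝ) ^ N)⁻¹ := by rw [one_div, inv_pow]
    rw [h4] at hfinal
    exact (inv_le_inv₀ (by positivity) (by positivity)).1 hfinal
  have h4 : B ≤ ((n : ℝ) * C) ^ n := by
    have h5 : F ^ N ≤ (F ^ (2 * (d + 1))) ^ n := by
      rw [← pow_mul]
      apply pow_le_pow_right₀ hF1
      rw [hN]
      nlinarith
    calc B ≤ (F ^ (2 * (d + 1))) ^ n * ((n : ℝ) ^ n * (κ : ℝ) ^ n * A ^ n * A ^ (κ * n * d)) :=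
          mul_le_mul_of_nonneg_right h5 (by positivity)
      _ = ((n : ℝ) * C) ^ n := by
          rw [hC]
          have : κ * n * d = (κ * d) * n := by ring
          rw [this, pow_mul A (κ * d) n]
          simp only [mul_pow]
          ring
  have h5 : (n : ℝ) ^ ((d + 1) * n) ≤ (n : ℝ) ^ N := by
    apply pow_le_pow_right₀ hnr
    omega
  have h6 : (n : ℝ) ^ ((d + 1) * n) ≤ (((n : ℝ) * C) ^ n) ^ d :=
    h5.trans (h3.trans (pow_le_pow_left₀ hBpos.le h4 d))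
  have hCpos : 0 < C := by positivity
  have h7 : (n : ℝ) ^ n ≤ (C ^ d) ^ n := by
    have h8 : (n : ℝ) ^ ((d + 1) * n) = ((n : ℝ) ^ n) ^ d * (n : ℝ) ^ n := by
      rw [← pow_mul, ← pow_add]
      congr 1
      ring
    have h9 : (((n : ℝ) * C) ^ n) ^ d = ((n : ℝ) ^ n) ^ d * (C ^ d) ^ n := by
      rw [mul_pow, mul_pow, ← pow_mul C, ← pow_mul C, mul_comm n d]
    rw [h8, h9] at h6
    exact le_of_mul_le_mul_left h6 (by positivity)
  have h8 : (n : ℝ) ≤ C ^ d :=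
    le_of_pow_le_pow_left₀ (by omega) (by positivity) h7
  linarith

end main

end Pool.Agent.Lib.PadicLindemann
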